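import Mathlib

set_option autoImplicit false

/-!
A law of large numbers for nearly pairwise independent events, tested against an arbitrary event.
-/

namespace Pool.Agent.E8helper86.MM

open MeasureTheory Set Filter Topology

theorem lln {Z : Type*} [MeasurableSpace Z] (m : Measure Z) [IsProbabilityMeasure m] (M : ℕ) (hM : 0 < M)
    (R : Fin M → Set Z) (hR : ∀ a, MeasurableSet (R a)) (c e : ℝ) (hc0 : 0 ≤ c) (hc1 : c ≤ 1) (he : 0 ≤ e)
    (h1 : ∀ a, c - e ≤ m.real (R a)) (h2 : ∀ a b, a ≠ b → m.real (R a ∩ R b) ≤ c ^ 2 + e)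
    (W : Set Z) (hW : MeasurableSet W) :
    |(∑ a, m.real (W ∩ R a)) / M - c * m.real W| ≤ Real.sqrt (1 / M + 3 * e) := by
  have hM' : (0 : ℝ) < M := by exact_mod_cast hM
  -- indicator functions
  set χ : Set Z → Z → ℝ := fun A => A.indicator (fun _ => (1 : ℝ)) with hχ
  have hint : ∀ A, MeasurableSet A → Integrable (χ A) m := fun A hA => (integrable_const (1 : ℝ)).indicator hA
  have hval : ∀ A, MeasurableSet A → ∫ z, χ A z ∂m = m.real A := by
    intro A hA
    rw [hχ]
    simp only
    rw [integral_indicator_const _ hA, smul_eq_mul, mul_one]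
  have hmul : ∀ A B z, χ A z * χ B z = χ (A ∩ B) z := by
    intro A B z
    simp only [hχ]
    by_cases hA : z ∈ A <;> by_cases hB : z ∈ B <;> simp [hA, hB]
  set f : Z → ℝ := fun z => (∑ a, χ (R a) z) / M - c with hf
  have hfint : Integrable f m :=
    ((integrable_finsetSum _ fun a _ => hint (R a) (hR a)).div_const _).sub (integrable_const c)
  set t : ℝ := (∑ a, m.real (W ∩ R a)) / M - c * m.real W with ht
  have hft : ∀ z, f z * χ W z = (∑ a, χ (W ∩ R a) z) / M - c * χ W z := by
    intro z
    simp only [hf]
    rw [sub_mul, div_mul_eq_mul_div, Finset.sum_mul]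
    congr 2
    refine Finset.sum_congr rfl fun a _ => ?_
    rw [mul_comm, hmul]
  have hfW : ∫ z, f z * χ W z ∂m = t := by
    simp only [hft]
    rw [integral_sub, integral_div, integral_finsetSum, integral_const_mul, hval W hW]
    · simp only [fun a => hval (W ∩ R a) (hW.inter (hR a))]
      rw [ht]
    · intro a _
      exact hint _ (hW.inter (hR a))
    · exact (integrable_finsetSum _ fun a _ => hint _ (hW.inter (hR a))).div_const _
    · exact (hint W hW).const_mul c
  have hfWint : Integrable (fun z => f z * χ W z) m := by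
    simp only [hft]
    exact ((integrable_finsetSum _ fun a _ => hint _ (hW.inter (hR a))).div_const _).sub
      ((hint W hW).const_mul c)
  -- the square
  have hsq : ∀ z, f z ^ 2 = (∑ a, ∑ b, χ (R a ∩ R b) z) / (M : ℝ) ^ 2 - 2 * c / M * (∑ a, χ (R a) z) + c ^ 2 := by
    intro z
    have h3 : (∑ a, χ (R a) z) ^ 2 = ∑ a, ∑ b, χ (R a ∩ R b) z := by
      rw [sq, Finset.sum_mul_sum]
      refine Finset.sum_congr rfl fun a _ => Finset.sum_congr rfl fun b _ => ?_
      rw [hmul]
    simp only [hf]
    rw [← h3]
    field_simp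
    ring
  have hsqint : Integrable (fun z => f z ^ 2) m := by
    simp only [hsq]
    refine ((Integrable.div_const (integrable_finsetSum _ fun a _ => integrable_finsetSum _ fun b _ =>
      hint _ ((hR a).inter (hR b))) _).sub ((integrable_finsetSum _ fun a _ => hint _ (hR a)).const_mul _)).add
      (integrable_const _)
  have hsqval : ∫ z, f z ^ 2 ∂m =
      (∑ a, ∑ b, m.real (R a ∩ R b)) / (M : ℝ) ^ 2 - 2 * c / M * (∑ a, m.real (R a)) + c ^ 2 := by
    simp only [hsq]
    rw [integral_add, integral_sub, integral_div, integral_finsetSum, integral_const_mul,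
      integral_finsetSum]
    · have e1 : ∀ a, ∫ z, ∑ b, χ (R a ∩ R b) z ∂m = ∑ b, m.real (R a ∩ R b) := by
        intro a
        rw [integral_finsetSum]
        · exact Finset.sum_congr rfl fun b _ => hval _ ((hR a).inter (hR b))
        · intro b _
          exact hint _ ((hR a).inter (hR b))
      simp only [e1, fun a => hval (R a) (hR a)]
      simp
    · intro a _
      exact hint _ (hR a)
    · intro a _
      exact integrable_finsetSum _ fun b _ => hint _ ((hR a).inter (hR b))
    · exact (integrable_finsetSum _ fun a _ => integrable_finsetSum _ fun b _ =>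
        hint _ ((hR a).inter (hR b))).div_const _
    · exact (integrable_finsetSum _ fun a _ => hint _ (hR a)).const_mul _
    · exact (Integrable.div_const (integrable_finsetSum _ fun a _ => integrable_finsetSum _ fun b _ =>
        hint _ ((hR a).inter (hR b))) _).sub ((integrable_finsetSum _ fun a _ => hint _ (hR a)).const_mul _)
    · exact integrable_const _
  have hsqle : ∫ z, f z ^ 2 ∂m ≤ 1 / M + 3 * e := by
    rw [hsqval]
    have e1 : ∑ a, ∑ b, m.real (R a ∩ R b) ≤ ∑ a : Fin M, ∑ b : Fin M, ((c ^ 2 + e) + if a = b then 1 else 0) := by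
      refine Finset.sum_le_sum fun a _ => Finset.sum_le_sum fun b _ => ?_
      by_cases hab : a = b
      · rw [if_pos hab]
        have : m.real (R a ∩ R b) ≤ 1 := measureReal_le_one
        have : 0 ≤ c ^ 2 + e := by positivity
        linarith
      · rw [if_neg hab, add_zero]
        exact h2 a b hab
    have e2 : ∑ a : Fin M, ∑ b : Fin M, ((c ^ 2 + e) + if a = b then (1 : ℝ) else 0) =
        (M : ℝ) ^ 2 * (c ^ 2 + e) + M := by
      simp [Finset.sum_add_distrib]
      ring
    have e3 : (M : ℝ) * (c - e) ≤ ∑ a, m.real (R a) := by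
      have := Finset.card_nsmul_le_sum (Finset.univ : Finset (Fin M)) (fun a => m.real (R a)) (c - e)
        (fun a _ => h1 a)
      simpa using this
    have e4 : (∑ a, ∑ b, m.real (R a ∩ R b)) / (M : ℝ) ^ 2 ≤ c ^ 2 + e + 1 / M := by
      rw [div_le_iff₀ (by positivity)]
      refine (e1.trans e2.le).trans (le_of_eq ?_)
      field_simp
    have e5 : 2 * c / M * (∑ a, m.real (R a)) ≥ 2 * c * (c - e) := by
      have : 2 * c / M * (∑ a, m.real (R a)) ≥ 2 * c / M * (M * (c - e)) := by
        apply mul_le_mul_of_nonneg_left e3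
        positivity
      refine le_trans (le_of_eq ?_) this
      field_simp
    nlinarith
  have hkey : 0 ≤ ∫ z, f z ^ 2 ∂m - 2 * t * t + t ^ 2 * m.real W := by
    have h3 : ∫ z, (f z - t * χ W z) ^ 2 ∂m = ∫ z, f z ^ 2 ∂m - 2 * t * t + t ^ 2 * m.real W := by
      have h4 : ∀ z, (f z - t * χ W z) ^ 2 = f z ^ 2 - 2 * t * (f z * χ W z) + t ^ 2 * χ W z := by
        intro z
        have h5 : χ W z * χ W z = χ W z := by rw [hmul, inter_self]
        calc (f z - t * χ W z) ^ 2 = f z ^ 2 - 2 * t * (f z * χ W z) + t ^ 2 * (χ W z * χ W z) := by ring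
          _ = _ := by rw [h5]
      simp only [h4]
      rw [integral_add, integral_sub, integral_const_mul, integral_const_mul, hfW, hval W hW]
      · exact hsqint
      · exact hfWint.const_mul _
      · exact hsqint.sub (hfWint.const_mul _)
      · exact (hint W hW).const_mul _
    rw [← h3]
    exact integral_nonneg fun z => sq_nonneg _
  apply Real.abs_le_sqrt
  have h6 : m.real W ≤ 1 := measureReal_le_one
  nlinarith [sq_nonneg t]

end Pool.Agent.E8helper86.MM
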