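import Mathlib
import Pool.Agent.W744.NG.YSt
import Pool.Agent.E8helper86.MM.LLN

set_option autoImplicit false
set_option linter.unusedSectionVars false
set_option linter.unusedVariables false

/-!
Almost invariant functions with values in `(ℤ/2)^r` which are nearly uniformly distributed and nearly
independent of finitely many events.
-/

namespace Pool.Agent.E8helper86.MM

open MeasureTheory Set Filter Topology
open scoped ENNReal symmDiff
open Pool.H359R3 Pool.H359R3.IX
open Pool.Agent.W744.NG

section basic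
variable {Z : Type*} [MeasurableSpace Z] {m : Measure Z} [IsFiniteMeasure m]

theorem abs_real_le {A B E : Set Z} (h1 : A ⊆ B ∪ E) (h2 : B ⊆ A ∪ E) :
    |m.real A - m.real B| ≤ m.real E := by
  have h3 : m.real A ≤ m.real B + m.real E :=
    (measureReal_mono h1).trans (measureReal_union_le _ _)
  have h4 : m.real B ≤ m.real A + m.real E :=
    (measureReal_mono h2).trans (measureReal_union_le _ _)
  rw [abs_le]
  constructor <;> linarith

theorem pre_real {S : Z → Z} (hS : MeasurePreserving S m m) {A : Set Z} (hA : MeasurableSet A) :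
    m.real (S ⁻¹' A) = m.real A := by
  rw [measureReal_def, measureReal_def, hS.measure_preimage hA.nullMeasurableSet]

/-- a property which fails on a small set in one step fails on a small set in `n` steps -/
theorem steps_real {S : Z → Z} (hS : MeasurePreserving S m m) (E : Set Z) (hE : MeasurableSet E) (n : ℕ) :
    m.real (⋃ i ∈ Finset.range n, (S^[i]) ⁻¹' E) ≤ n * m.real E := by
  refine (measureReal_biUnion_finset_le _ _).trans ?_
  refine (Finset.sum_le_sum fun i _ => (pre_real (hS.iterate i) hE).le).trans ?_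
  simp

end basic

/-- two-fold mixing -/
def Mix2 {X : Type*} [MeasurableSpace X] (μ : Measure X) (T : X → X) : Prop :=
  ∀ A B : Set X, MeasurableSet A → MeasurableSet B → ∀ ε : ℝ, 0 < ε → ∃ N : ℕ, ∀ n ≥ N,
    |μ.real (A ∩ T^[n] ⁻¹' B) - μ.real A * μ.real B| < ε

section
variable {X : Type} [MeasurableSpace X] {μ : Measure X} [IsProbabilityMeasure μ]

/-- under a mixing automorphism almost every point visits a set of positive measure in the past -/
theorem never_null (T : AU μ) (hT : Mix2 μ T.1) (A : Set X) (hA : MeasurableSet A) (hA0 : 0 < μ.real A) :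
    μ.real {x | ∀ i : ℕ, (T.1.symm : X → X)^[i] x ∉ A} = 0 := by
  set N : Set X := {x | ∀ i : ℕ, (T.1.symm : X → X)^[i] x ∉ A} with hN
  have hNm : MeasurableSet N := by
    have : N = ⋂ i : ℕ, ((T.1.symm : X → X)^[i]) ⁻¹' Aᶜ := by
      ext x; simp [hN]
    rw [this]
    exact MeasurableSet.iInter fun i => (T.1.symm.measurable.iterate i) hA.compl
  have hinv : ∀ n : ℕ, (T.1 : X → X)^[n] ⁻¹' N ⊆ N := by
    intro n x hx i
    have h1 := hx (i + n)
    rw [Function.iterate_add_apply] at h1
    have h2 : (T.1.symm : X → X)^[n] ((T.1 : X → X)^[n] x) = x :=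
      (Function.LeftInverse.iterate (T.1.symm_apply_apply) n) x
    rwa [h2] at h1
  have hmp : ∀ n : ℕ, μ.real (N \ (T.1 : X → X)^[n] ⁻¹' N) = 0 := by
    intro n
    have h1 := pre_real (T.2.iterate n) hNm
    have h2 := measureReal_sdiff_add_inter (μ := μ) (s := N)
      (t := (T.1 : X → X)^[n] ⁻¹' N) ((T.1.measurable.iterate n) hNm)
    rw [inter_eq_self_of_subset_right (hinv n), h1] at h2
    linarith
  have hzero : ∀ n : ℕ, μ.real (N ∩ (T.1 : X → X)^[n] ⁻¹' A) = 0 := by
    intro n
    refine le_antisymm ?_ measureReal_nonneg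
    rw [← hmp n]
    refine measureReal_mono ?_ (measure_ne_top _ _)
    rintro x ⟨h1, h2⟩
    exact ⟨h1, fun h3 => h3 0 h2⟩
  by_contra hne
  have hpos : 0 < μ.real N * μ.real A := mul_pos (lt_of_le_of_ne measureReal_nonneg (Ne.symm hne)) hA0
  obtain ⟨n0, hn0⟩ := hT N A hNm hA _ hpos
  have := hn0 n0 le_rfl
  rw [hzero n0, zero_sub, abs_neg, abs_of_pos hpos] at this
  exact lt_irrefl _ this

theorem exists_tau [StandardBorelSpace X] [NullSingletonClass μ] (T : AU μ) (hT : Mix2 μ T.1) (κ : ℝ)
    (hκ : 0 < κ) : ∃ τ : X → ℕ, Measurable τ ∧ μ.real {x | τ (T.1 x) ≠ τ x + 1} < κ := by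
  classical
  obtain ⟨D⟩ := YSt.main X μ
  obtain ⟨r, hr⟩ := exists_pow_lt_of_lt_one hκ (by norm_num : (1 / 2 : ℝ) < 1)
  set A : Set X := {x | D.v r x = 0} with hA
  have hAm : MeasurableSet A := D.meas r 0
  have hAμ : μ.real A = 1 / 2 ^ r := D.unif r 0
  have hA0 : 0 < μ.real A := by rw [hAμ]; positivity
  set N : Set X := {x | ∀ i : ℕ, (T.1.symm : X → X)^[i] x ∉ A} with hN
  have hNm : MeasurableSet N := by
    have : N = ⋂ i : ℕ, ((T.1.symm : X → X)^[i]) ⁻¹' Aᶜ := by
      ext x; simp [hN]
    rw [this]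
    exact MeasurableSet.iInter fun i => (T.1.symm.measurable.iterate i) hAm.compl
  have hN0 := never_null T hT A hAm hA0
  have hex : ∀ x, ∃ i : ℕ, (T.1.symm : X → X)^[i] x ∈ A ∨ x ∈ N := by
    intro x
    by_cases hx : x ∈ N
    · exact ⟨0, Or.inr hx⟩
    · rw [hN, mem_ofPred_eq] at hx
      push Not at hx
      obtain ⟨i, hi⟩ := hx
      exact ⟨i, Or.inl hi⟩
  refine ⟨fun x => Nat.find (hex x), ?_, ?_⟩
  · apply measurable_find
    intro k
    exact ((T.1.symm.measurable.iterate k) hAm).union hNm
  · have hsub : {x | Nat.find (hex (T.1 x)) ≠ Nat.find (hex x) + 1} ⊆ (T.1 : X → X) ⁻¹' A ∪ N := by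
      intro x hx
      by_contra hc
      rw [mem_union, not_or] at hc
      obtain ⟨hc1, hc2⟩ := hc
      apply hx
      have hTN : T.1 x ∉ N := by
        intro h
        apply hc2
        intro i
        have := h (i + 1)
        rwa [Function.iterate_succ_apply, T.1.symm_apply_apply] at this
      rw [Nat.find_eq_iff]
      constructor
      · rw [Function.iterate_succ_apply, T.1.symm_apply_apply]
        rcases Nat.find_spec (hex x) with h | h
        · exact Or.inl h
        · exact absurd h hc2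
      · intro j hj
        rcases j with _ | j
        · rintro (h | h)
          · exact hc1 h
          · exact hTN h
        · have hj' : j < Nat.find (hex x) := by omega
          have h1 := Nat.find_min (hex x) hj'
          rintro (h | h)
          · rw [Function.iterate_succ_apply, T.1.symm_apply_apply] at h
            exact h1 (Or.inl h)
          · exact hTN h
    refine lt_of_le_of_lt ((measureReal_mono hsub).trans (measureReal_union_le _ _)) ?_
    rw [hN0, add_zero, pre_real T.2 hAm, hAμ]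
    simpa using hr

/-- the residues of `τ` are nearly uniformly distributed -/
theorem residues (T : AU μ) (τ : X → ℕ) (hτ : Measurable τ) (κ : ℝ)
    (hκ : μ.real {x | τ (T.1 x) ≠ τ x + 1} ≤ κ) (n : ℕ) (hn : 0 < n) (ρ : ℕ) (hρ : ρ < n) :
    |μ.real {x | τ x % n = ρ} - 1 / n| ≤ n * κ := by
  have hκ0 : 0 ≤ κ := measureReal_nonneg.trans hκ
  have hm : ∀ ρ, MeasurableSet {x | τ x % n = ρ} := fun ρ =>
    (measurable_from_top (f := fun k : ℕ => k % n)).comp hτ (measurableSet_singleton ρ)
  set Z : ℕ → ℝ := fun ρ => μ.real {x | τ x % n = ρ} with hZ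
  have hstep : ∀ ρ, ρ + 1 < n → |Z (ρ + 1) - Z ρ| ≤ κ := by
    intro ρ hρ
    refine le_trans ?_ hκ
    simp only [hZ]
    rw [← pre_real T.2 (hm (ρ + 1))]
    apply abs_real_le
    · intro x hx
      by_cases h : τ (T.1 x) = τ x + 1
      · left
        have h1 : τ (T.1 x) % n = ρ + 1 := hx
        rw [h, Nat.add_mod] at h1
        show τ x % n = ρ
        have h2 := Nat.mod_lt (τ x) hn
        have h3 : 1 % n = 1 := Nat.mod_eq_of_lt (by omega)
        rw [h3] at h1
        by_cases h4 : τ x % n + 1 = n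
        · rw [h4, Nat.mod_self] at h1
          omega
        · rw [Nat.mod_eq_of_lt (by omega)] at h1
          omega
      · exact Or.inr h
    · intro x hx
      by_cases h : τ (T.1 x) = τ x + 1
      · left
        have h1 : τ x % n = ρ := hx
        show τ (T.1 x) % n = ρ + 1
        rw [h, Nat.add_mod, h1]
        have h3 : 1 % n = 1 := Nat.mod_eq_of_lt (by omega)
        rw [h3, Nat.mod_eq_of_lt hρ]
      · exact Or.inr h
  have hzero : ∀ ρ, ρ < n → |Z ρ - Z 0| ≤ ρ * κ := by
    intro ρ
    induction ρ with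
    | zero => intro _; simp
    | succ ρ ih =>
      intro h
      have h1 := ih (by omega)
      have h2 := hstep ρ h
      calc |Z (ρ + 1) - Z 0| ≤ |Z (ρ + 1) - Z ρ| + |Z ρ - Z 0| := abs_sub_le _ _ _
        _ ≤ κ + ρ * κ := add_le_add h2 h1
        _ = _ := by push_cast; ring
  have hdiff : ∀ ρ ρ', ρ ≤ ρ' → ρ' < n → |Z ρ' - Z ρ| ≤ (ρ' - ρ : ℕ) * κ := by
    intro ρ ρ' hle
    obtain ⟨d, rfl⟩ := Nat.exists_eq_add_of_le hle
    induction d with
    | zero => intro _; simp
    | succ d ih =>
      intro h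
      have h1 := ih (by omega) (by omega)
      have h2 := hstep (ρ + d) (by omega)
      have e1 : ρ + (d + 1) - ρ = d + 1 := by omega
      have e2 : ρ + d - ρ = d := by omega
      rw [e1]
      rw [e2] at h1
      calc |Z (ρ + (d + 1)) - Z ρ| ≤ |Z (ρ + d + 1) - Z (ρ + d)| + |Z (ρ + d) - Z ρ| := abs_sub_le _ _ _
        _ ≤ κ + d * κ := add_le_add h2 h1
        _ = _ := by push_cast; ring
  have hall : ∀ ρ' < n, |Z ρ - Z ρ'| ≤ n * κ := by
    intro ρ' hρ'
    rcases le_total ρ' ρ with h | h
    · refine (hdiff ρ' ρ h hρ).trans ?_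
      apply mul_le_mul_of_nonneg_right _ hκ0
      exact_mod_cast (by omega : ρ - ρ' ≤ n)
    · rw [abs_sub_comm]
      refine (hdiff ρ ρ' h hρ').trans ?_
      apply mul_le_mul_of_nonneg_right _ hκ0
      exact_mod_cast (by omega : ρ' - ρ ≤ n)
  have hsum : ∑ ρ' ∈ Finset.range n, Z ρ' = 1 := by
    have h1 := sum_measureReal_preimage_singleton (μ := μ) (Finset.range n) (f := fun x => τ x % n)
      (fun y _ => hm y)
    have h2 : (fun x => τ x % n) ⁻¹' (Finset.range n : Set ℕ) = univ := by
      ext x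
      simp [Nat.mod_lt _ hn]
    rw [h2, probReal_univ] at h1
    exact h1
  have hn' : (0 : ℝ) < n := by exact_mod_cast hn
  have h3 : n * (Z ρ - 1 / n) = ∑ ρ' ∈ Finset.range n, (Z ρ - Z ρ') := by
    rw [Finset.sum_sub_distrib, hsum]
    simp only [Finset.sum_const, Finset.card_range, nsmul_eq_mul]
    field_simp
  have h4 : |n * (Z ρ - 1 / n)| ≤ n * (n * κ) := by
    rw [h3]
    refine (Finset.abs_sum_le_sum_abs _ _).trans ?_
    refine (Finset.sum_le_sum fun ρ' h => hall ρ' (Finset.mem_range.1 h)).trans ?_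
    simp
  rw [abs_mul, abs_of_pos hn'] at h4
  exact le_of_mul_le_mul_left h4 hn'

end

end Pool.Agent.E8helper86.MM
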