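import Mathlib
import Pool.Agent.E8helper86.MM.Gauge

set_option autoImplicit false
set_option linter.unusedSectionVars false
set_option linter.unusedVariables false

/-!
Almost invariant functions with values in `(ℤ/2)^r` which are nearly uniformly distributed and nearly
independent of finitely many events: construction.
-/

namespace Pool.Agent.E8helper86.MM

open MeasureTheory Set Filter Topology
open scoped ENNReal symmDiff
open Pool.H359R3 Pool.H359R3.IX
open Pool.Agent.W744.NG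

section
variable {X : Type} [MeasurableSpace X] {μ : Measure X} [IsProbabilityMeasure μ]

theorem exists_gamma0 [StandardBorelSpace X] [NullSingletonClass μ] (T : AU μ) (hT : Mix2 μ T.1) (r : ℕ)
    (δ ε : ℝ) (hδ : 0 < δ) (hε : 0 < ε) :
    ∃ Γ : X → (Fin r → ZMod 2), (∀ w, MeasurableSet {x | Γ x = w}) ∧ μ.real {x | Γ (T.1 x) ≠ Γ x} < δ ∧
      ∀ w, |μ.real {x | Γ x = w} - 1 / 2 ^ r| ≤ ε := by
  obtain ⟨L0, hL0⟩ := exists_nat_one_div_lt (show (0 : ℝ) < δ / 2 by positivity)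
  obtain ⟨L, hLdef⟩ : ∃ L : ℕ, L = L0 + 1 := ⟨_, rfl⟩
  have hL : 0 < L := by omega
  have hL' : (0 : ℝ) < L := by exact_mod_cast hL
  have hL1 : 1 / (L : ℝ) < δ / 2 := by
    rw [hLdef]; push_cast; exact hL0
  obtain ⟨n, hndef⟩ : ∃ n : ℕ, n = L * 2 ^ r := ⟨_, rfl⟩
  have hn : 0 < n := by rw [hndef]; positivity
  have hn' : (0 : ℝ) < n := by exact_mod_cast hn
  obtain ⟨κ, hκdef⟩ : ∃ κ : ℝ, κ = min (δ / (4 * (L + 1))) (ε / (L * n)) := ⟨_, rfl⟩
  have hκ : 0 < κ := by rw [hκdef]; positivity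
  have hκ1 : κ * (4 * (L + 1)) ≤ δ := by
    have : κ ≤ δ / (4 * (L + 1)) := by rw [hκdef]; exact min_le_left _ _
    rwa [le_div_iff₀ (by positivity)] at this
  have hκ2 : κ * (L * n) ≤ ε := by
    have : κ ≤ ε / (L * n) := by rw [hκdef]; exact min_le_right _ _
    rwa [le_div_iff₀ (by positivity)] at this
  obtain ⟨τ, hτ, hbad⟩ := exists_tau T hT κ hκ
  have hlt : ∀ x, (τ x % n) / L < 2 ^ r := by
    intro x
    apply Nat.div_lt_of_lt_mul
    rw [← hndef]
    exact Nat.mod_lt _ hn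
  have hlev : ∀ w, {x | YSt.be r ⟨(τ x % n) / L, hlt x⟩ = w} =
      {x | (τ x % n) / L = (((YSt.be r).symm w : Fin (2 ^ r)) : ℕ)} := by
    intro w
    ext x
    simp only [mem_ofPred_eq]
    rw [← Equiv.eq_symm_apply]
    constructor
    · intro h
      rw [← h]
    · intro h
      exact Fin.ext h
  refine ⟨fun x => YSt.be r ⟨(τ x % n) / L, hlt x⟩, ?_, ?_, ?_⟩
  · intro w
    rw [hlev w]
    exact (measurable_from_top (f := fun k : ℕ => (k % n) / L)).comp hτ (measurableSet_singleton _)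
  · have hres := residues T τ hτ κ hbad.le L hL (L - 1) (by omega)
    have hsub : {x | YSt.be r ⟨(τ (T.1 x) % n) / L, hlt (T.1 x)⟩ ≠ YSt.be r ⟨(τ x % n) / L, hlt x⟩} ⊆
        {x | τ (T.1 x) ≠ τ x + 1} ∪ {x | τ x % L = L - 1} := by
      intro x hx
      by_contra hc
      rw [mem_union, not_or] at hc
      obtain ⟨hc1, hc2⟩ := hc
      rw [mem_ofPred_eq, not_not] at hc1
      apply hx
      congr 1
      apply Fin.ext
      show (τ (T.1 x) % n) / L = (τ x % n) / L
      rw [hc1]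
      have h1 : τ x % n % L = τ x % L := Nat.mod_mod_of_dvd _ (by rw [hndef]; exact dvd_mul_right _ _)
      have h2 : τ x % L ≠ L - 1 := hc2
      have h3 : τ x % L < L := Nat.mod_lt _ hL
      have h4 : τ x % n < n := Nat.mod_lt _ hn
      obtain ⟨q, hq⟩ : ∃ q, q = τ x % n := ⟨_, rfl⟩
      rw [← hq] at h1 h4 ⊢
      have h6 := Nat.div_add_mod q L
      have h7 : q + 1 < n := by
        rcases Nat.lt_or_ge (q + 1) n with h | h
        · exact h
        · exfalso
          have h8 : q + 1 = L * 2 ^ r := by omega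
          have h9 : (q + 1) % L = 0 := by rw [h8]; exact Nat.mul_mod_right _ _
          have h10 : (q + 1) % L = (q % L + 1) % L := by rw [Nat.add_mod]; simp [Nat.add_mod]
          rw [h10, h1, Nat.mod_eq_of_lt (by omega)] at h9
          omega
      have h5 : (τ x + 1) % n = q + 1 := by
        rw [Nat.add_mod, ← hq]
        rcases Nat.lt_or_ge 1 n with h | h
        · rw [Nat.mod_eq_of_lt h, Nat.mod_eq_of_lt h7]
        · omega
      rw [h5]
      have h8 : q + 1 = L * (q / L) + (q % L + 1) := by omega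
      rw [h8, Nat.mul_add_div hL, Nat.div_eq_of_lt (by omega : q % L + 1 < L), add_zero]
    refine lt_of_le_of_lt ((measureReal_mono hsub).trans (measureReal_union_le _ _)) ?_
    have h2 := (abs_le.1 hres).2
    nlinarith
  · intro w
    rw [hlev w]
    obtain ⟨k, hk, hkw⟩ : ∃ k : ℕ, k < 2 ^ r ∧ (((YSt.be r).symm w : Fin (2 ^ r)) : ℕ) = k :=
      ⟨_, ((YSt.be r).symm w).2, rfl⟩
    rw [hkw]
    have h1 : {x | (τ x % n) / L = k} = (fun x => τ x % n) ⁻¹' (Finset.Ico (L * k) (L * (k + 1)) : Finset ℕ) := by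
      ext x
      simp only [mem_ofPred_eq, mem_preimage, Finset.coe_Ico, mem_Ico]
      rw [Nat.div_eq_iff hL]
      constructor
      · rintro ⟨h1, h2⟩
        constructor
        · rw [mul_comm]; exact h1
        · rw [Nat.mul_add]
          rw [mul_comm L k]
          omega
      · rintro ⟨h1, h2⟩
        rw [Nat.mul_add] at h2
        rw [mul_comm L k] at h1 h2
        omega
    rw [h1]
    have hm : ∀ ρ, MeasurableSet ((fun x => τ x % n) ⁻¹' {ρ}) := fun ρ =>
      (measurable_from_top (f := fun k : ℕ => k % n)).comp hτ (measurableSet_singleton ρ)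
    rw [← sum_measureReal_preimage_singleton (μ := μ) _ (fun y _ => hm y)]
    have h2 : (1 : ℝ) / 2 ^ r = ∑ ρ ∈ Finset.Ico (L * k) (L * (k + 1)), 1 / (n : ℝ) := by
      rw [Finset.sum_const, Nat.card_Ico, nsmul_eq_mul]
      have : L * (k + 1) - L * k = L := by rw [Nat.mul_add]; omega
      rw [this, hndef]
      push_cast
      field_simp
    rw [h2, ← Finset.sum_sub_distrib]
    refine (Finset.abs_sum_le_sum_abs _ _).trans ?_
    have h3 : ∀ ρ ∈ Finset.Ico (L * k) (L * (k + 1)), |μ.real ((fun x => τ x % n) ⁻¹' {ρ}) - 1 / n| ≤ n * κ := by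
      intro ρ hρ
      rw [Finset.mem_Ico] at hρ
      refine residues T τ hτ κ hbad.le n hn ρ ?_
      refine lt_of_lt_of_le hρ.2 ?_
      rw [hndef]
      exact Nat.mul_le_mul_left L hk
    refine (Finset.sum_le_sum h3).trans ?_
    rw [Finset.sum_const, Nat.card_Ico, nsmul_eq_mul]
    have : L * (k + 1) - L * k = L := by rw [Nat.mul_add]; omega
    rw [this]
    linarith

/-- iterates of an almost invariant function -/
theorem iter_inv {β : Type*} (T : AU μ) (Γ : X → β) (hE : MeasurableSet {x | Γ (T.1 x) ≠ Γ x}) (n : ℕ) :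
    μ.real {x | Γ ((T.1 : X → X)^[n] x) ≠ Γ x} ≤ n * μ.real {x | Γ (T.1 x) ≠ Γ x} := by
  refine le_trans (measureReal_mono ?_ (measure_ne_top _ _)) (steps_real T.2 _ hE n)
  intro x hx
  by_contra hc
  apply hx
  have h1 : ∀ i < n, Γ (T.1 ((T.1 : X → X)^[i] x)) = Γ ((T.1 : X → X)^[i] x) := by
    intro i hi
    by_contra h
    exact hc (mem_biUnion (show i ∈ Finset.range n from Finset.mem_range.2 hi) h)
  clear hx hc
  induction n with
  | zero => rfl
  | succ n ih =>
    rw [Function.iterate_succ_apply', h1 n (by omega)]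
    exact ih fun i hi => h1 i (by omega)

/-- sparse times for which finitely many events are nearly pairwise independent -/
theorem exists_times (T : AU μ) (hT : Mix2 μ T.1) {ι : Type*} [Fintype ι] (C : ι → Set X)
    (hC : ∀ j, MeasurableSet (C j)) (e : ℝ) (he : 0 < e) :
    ∃ P : ℕ, ∀ j (a b : ℕ), a ≠ b →
      μ.real (((T.1 : X → X)^[a * P] ⁻¹' C j) ∩ ((T.1 : X → X)^[b * P] ⁻¹' C j)) ≤ μ.real (C j) ^ 2 + e := by
  have h1 : ∀ j, ∃ N : ℕ, ∀ n ≥ N, |μ.real (C j ∩ (T.1 : X → X)^[n] ⁻¹' (C j)) - μ.real (C j) * μ.real (C j)| < e :=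
    fun j => hT (C j) (C j) (hC j) (hC j) e he
  choose N hN using h1
  refine ⟨Finset.univ.sup N, fun j a b hab => ?_⟩
  have key : ∀ a b : ℕ, a < b →
      μ.real (((T.1 : X → X)^[a * Finset.univ.sup N] ⁻¹' C j) ∩ ((T.1 : X → X)^[b * Finset.univ.sup N] ⁻¹' C j)) ≤
        μ.real (C j) ^ 2 + e := by
    intro a b hlt
    obtain ⟨d, rfl⟩ := Nat.exists_eq_add_of_lt hlt
    have e1 : ((T.1 : X → X)^[a * Finset.univ.sup N] ⁻¹' C j) ∩
        ((T.1 : X → X)^[(a + d + 1) * Finset.univ.sup N] ⁻¹' C j) =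
        (T.1 : X → X)^[a * Finset.univ.sup N] ⁻¹' (C j ∩ (T.1 : X → X)^[(d + 1) * Finset.univ.sup N] ⁻¹' C j) := by
      ext x
      simp only [mem_inter_iff, mem_preimage]
      rw [← Function.iterate_add_apply]
      have : (d + 1) * Finset.univ.sup N + a * Finset.univ.sup N = (a + d + 1) * Finset.univ.sup N := by ring
      rw [this]
    rw [e1, pre_real (T.2.iterate _) ((hC j).inter ((T.1.measurable.iterate _) (hC j)))]
    have h2 := hN j ((d + 1) * Finset.univ.sup N) (by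
      have : N j ≤ Finset.univ.sup N := Finset.le_sup (Finset.mem_univ j)
      nlinarith)
    have h3 := (abs_lt.1 h2).2
    nlinarith
  rcases lt_or_gt_of_ne hab with h | h
  · exact key a b h
  · rw [inter_comm]
    exact key b a h

/-- parameters for the law of large numbers -/
theorem exists_params (ε : ℝ) (hε : 0 < ε) : ∃ (M : ℕ) (e : ℝ), 0 < M ∧ 0 < e ∧ Real.sqrt (1 / M + 3 * e) ≤ ε := by
  obtain ⟨M0, hM0⟩ := exists_nat_one_div_lt (show (0 : ℝ) < ε ^ 2 / 2 by positivity)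
  refine ⟨M0 + 1, ε ^ 2 / 6, by omega, by positivity, ?_⟩
  rw [Real.sqrt_le_left hε.le]
  push_cast
  nlinarith

theorem exists_gamma [StandardBorelSpace X] [NullSingletonClass μ] (T : AU μ) (hT : Mix2 μ T.1) (r : ℕ)
    {ι : Type*} [Fintype ι] (C : ι → Set X) (hC : ∀ j, MeasurableSet (C j)) (δ ε : ℝ) (hδ : 0 < δ) (hε : 0 < ε) :
    ∃ Γ : X → (Fin r → ZMod 2), (∀ w, MeasurableSet {x | Γ x = w}) ∧ μ.real {x | Γ (T.1 x) ≠ Γ x} < δ ∧
      ∀ j w, |μ.real (C j ∩ {x | Γ x = w}) - μ.real (C j) / 2 ^ r| ≤ ε := by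
  obtain ⟨M, e, hM, he, hMe⟩ := exists_params (ε / 4) (by positivity)
  obtain ⟨P, hP⟩ := exists_times T hT C hC e he
  obtain ⟨Γ, hΓm, hΓδ, hΓu⟩ := exists_gamma0 T hT r (min δ (ε / (4 * (M * P + 1)))) (ε / 4) (by positivity) (by positivity)
  refine ⟨Γ, hΓm, lt_of_lt_of_le hΓδ (min_le_left _ _), fun j w => ?_⟩
  have hM' : (0 : ℝ) < M := by exact_mod_cast hM
  set W : Set X := {x | Γ x = w} with hW
  have hWm : MeasurableSet W := hΓm w
  have hbadm : MeasurableSet {x | Γ (T.1 x) ≠ Γ x} := by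
    have : {x | Γ (T.1 x) ≠ Γ x} = (⋃ v, ((T.1 : X → X) ⁻¹' {x | Γ x = v}) ∩ {x | Γ x = v})ᶜ := by
      ext x
      simp
      exact not_congr ⟨Eq.symm, Eq.symm⟩
    rw [this]
    exact (MeasurableSet.iUnion fun v => (T.1.measurable (hΓm v)).inter (hΓm v)).compl
  have hc1 : μ.real (C j) ≤ 1 := measureReal_le_one
  have h1 := lln μ M hM (fun a : Fin M => (T.1 : X → X)^[(a : ℕ) * P] ⁻¹' C j)
    (fun a => (T.1.measurable.iterate _) (hC j)) (μ.real (C j)) e measureReal_nonneg hc1 he.le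
    (fun a => by rw [pre_real (T.2.iterate _) (hC j)]; linarith)
    (fun a b hab => hP j a b (fun h => hab (Fin.ext h))) W hWm
  have h2 : ∀ a : Fin M, |μ.real (C j ∩ W) - μ.real (W ∩ (T.1 : X → X)^[(a : ℕ) * P] ⁻¹' C j)| ≤ ε / 4 := by
    intro a
    have e1 : μ.real (C j ∩ W) = μ.real (((T.1 : X → X)^[(a : ℕ) * P] ⁻¹' (C j ∩ W))) :=
      (pre_real (T.2.iterate _) ((hC j).inter hWm)).symm
    rw [e1]
    refine (abs_real_le (E := {x | Γ ((T.1 : X → X)^[(a : ℕ) * P] x) ≠ Γ x}) ?_ ?_).trans ?_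
    · rintro x ⟨h3, h4⟩
      by_cases h : Γ ((T.1 : X → X)^[(a : ℕ) * P] x) = Γ x
      · left
        refine ⟨?_, h3⟩
        show Γ x = w
        rw [← h]
        exact h4
      · exact Or.inr h
    · rintro x ⟨h3, h4⟩
      by_cases h : Γ ((T.1 : X → X)^[(a : ℕ) * P] x) = Γ x
      · left
        refine ⟨h4, ?_⟩
        show Γ ((T.1 : X → X)^[(a : ℕ) * P] x) = w
        rw [h]
        exact h3
      · exact Or.inr h
    · refine (iter_inv T Γ hbadm _).trans ?_
      have h5 : μ.real {x | Γ (T.1 x) ≠ Γ x} ≤ ε / (4 * (M * P + 1)) := hΓδ.le.trans (min_le_right _ _)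
      rw [le_div_iff₀ (by positivity)] at h5
      have h6 : ((a : ℕ) : ℝ) ≤ M := by exact_mod_cast a.2.le
      have h7 : 0 ≤ μ.real {x | Γ (T.1 x) ≠ Γ x} := measureReal_nonneg
      have h8 : (0 : ℝ) ≤ P := Nat.cast_nonneg _
      push_cast
      have h9 : (a : ℝ) * P ≤ M * P := mul_le_mul_of_nonneg_right h6 h8
      nlinarith
  have h3 : |μ.real (C j ∩ W) - (∑ a : Fin M, μ.real (W ∩ (T.1 : X → X)^[(a : ℕ) * P] ⁻¹' C j)) / M| ≤ ε / 4 := by
    have e1 : μ.real (C j ∩ W) - (∑ a : Fin M, μ.real (W ∩ (T.1 : X → X)^[(a : ℕ) * P] ⁻¹' C j)) / M =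
        (∑ a : Fin M, (μ.real (C j ∩ W) - μ.real (W ∩ (T.1 : X → X)^[(a : ℕ) * P] ⁻¹' C j))) / M := by
      rw [Finset.sum_sub_distrib, sub_div]
      simp
      field_simp
    rw [e1, abs_div, abs_of_pos hM', div_le_iff₀ hM']
    refine (Finset.abs_sum_le_sum_abs _ _).trans ?_
    refine (Finset.sum_le_sum fun a _ => h2 a).trans ?_
    simp
    linarith
  have h4 : |μ.real (C j) * μ.real W - μ.real (C j) / 2 ^ r| ≤ ε / 4 := by
    have e1 : μ.real (C j) * μ.real W - μ.real (C j) / 2 ^ r = μ.real (C j) * (μ.real W - 1 / 2 ^ r) := by ring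
    rw [e1, abs_mul, abs_of_nonneg measureReal_nonneg]
    have := hΓu w
    calc μ.real (C j) * |μ.real W - 1 / 2 ^ r| ≤ 1 * (ε / 4) :=
          mul_le_mul hc1 this (abs_nonneg _) zero_le_one
      _ = ε / 4 := one_mul _
  have h5 := h1.trans hMe
  have h6 := abs_le.1 h3
  have h7 := abs_le.1 h4
  have h8 := abs_le.1 h5
  rw [abs_le]
  constructor <;> linarith [h6.1, h6.2, h7.1, h7.2, h8.1, h8.2]

end

end Pool.Agent.E8helper86.MM
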