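import Mathlib
import Pool.Agent.E8helper86.MM.Gamma

set_option autoImplicit false
set_option linter.unusedSectionVars false
set_option linter.unusedVariables false

/-!
Approximation of events of the product by events which depend on the second coordinate only through a
label.
-/

namespace Pool.Agent.E8helper86.MM

open MeasureTheory Set Filter Topology
open scoped ENNReal symmDiff
open Pool.H359R3 Pool.H359R3.IX
open Pool.Agent.W744.NG

section
variable {X Y : Type} [MeasurableSpace X] [MeasurableSpace Y] {μ : Measure X} {ν : Measure Y}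
  [IsProbabilityMeasure μ] [IsProbabilityMeasure ν]

/-- the event with sections `C v` over the label `v` -/
def lab (D : YS ν) (r : ℕ) (C : (Fin r → ZMod 2) → Set X) : Set (X × Y) := {z | z.1 ∈ C (D.v r z.2)}

theorem lab_meas (D : YS ν) (r : ℕ) (C : (Fin r → ZMod 2) → Set X) (hC : ∀ v, MeasurableSet (C v)) :
    MeasurableSet (lab D r C) := by
  have : lab D r C = ⋃ v, C v ×ˢ {y | D.v r y = v} := by
    ext z
    simp [lab]
  rw [this]
  exact MeasurableSet.iUnion fun v => (hC v).prod (D.meas r v)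

theorem approx (D : YS ν) (B : Set (X × Y)) (hB : MeasurableSet B) : ∀ ε : ℝ, 0 < ε → ∃ r₀ : ℕ, ∀ r ≥ r₀,
    ∃ C : (Fin r → ZMod 2) → Set X, (∀ v, MeasurableSet (C v)) ∧
      (μ.prod ν).real (B ∆ lab D r C) < ε := by
  refine MeasurableSpace.induction_on_inter (C := fun B _ => ∀ ε : ℝ, 0 < ε → ∃ r₀ : ℕ, ∀ r ≥ r₀,
    ∃ C : (Fin r → ZMod 2) → Set X, (∀ v, MeasurableSet (C v)) ∧
      (μ.prod ν).real (B ∆ lab D r C) < ε) generateFrom_prod.symm isPiSystem_prod ?_ ?_ ?_ ?_ B hB
  · intro ε hε
    refine ⟨0, fun r _ => ⟨fun _ => ∅, fun _ => MeasurableSet.empty, ?_⟩⟩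
    have : (∅ : Set (X × Y)) ∆ lab D r (fun _ => (∅ : Set X)) = ∅ := by
      ext z; simp [lab]
    rw [this, measureReal_empty]
    exact hε
  · rintro _ ⟨s, hs, t, ht, rfl⟩ ε hε
    obtain ⟨r₀, w, hw⟩ := D.gen t ht ε hε
    refine ⟨r₀, fun r hr => ?_⟩
    classical
    refine ⟨fun v => if ∃ y, D.v r y = v ∧ D.v r₀ y ∈ w then s else ∅, fun v => ?_, ?_⟩
    · dsimp only
      split_ifs
      · exact hs
      · exact MeasurableSet.empty
    · refine lt_of_le_of_lt ?_ hw
      have h1 : (s ×ˢ t) ∆ lab D r (fun v => if ∃ y, D.v r y = v ∧ D.v r₀ y ∈ w then s else ∅) ⊆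
          (univ : Set X) ×ˢ (t ∆ {y | D.v r₀ y ∈ w}) := by
        rintro ⟨x, y⟩ hz
        refine ⟨mem_univ _, ?_⟩
        have key : (∃ y', D.v r y' = D.v r y ∧ D.v r₀ y' ∈ w) ↔ D.v r₀ y ∈ w := by
          constructor
          · rintro ⟨y', h1, h2⟩
            rwa [← D.ref r₀ r hr y' y h1]
          · intro h
            exact ⟨y, rfl, h⟩
        simp only [Set.mem_symmDiff, lab, mem_ofPred_eq, mem_prod, key] at hz ⊢
        by_cases h : D.v r₀ y ∈ w
        · simp only [h, if_true] at hz ⊢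
          tauto
        · simp only [h, if_false] at hz ⊢
          rcases hz with ⟨h1, h2⟩ | ⟨h1, h2⟩
          · exact Or.inl ⟨h1.2, not_false⟩
          · exact absurd h1 (by simp)
      refine (measureReal_mono h1).trans (le_of_eq ?_)
      rw [measureReal_def, Measure.prod_prod, measure_univ, one_mul, measureReal_def]
  · intro B hB ih ε hε
    obtain ⟨r₀, h⟩ := ih ε hε
    refine ⟨r₀, fun r hr => ?_⟩
    obtain ⟨C, hC, hC2⟩ := h r hr
    refine ⟨fun v => (C v)ᶜ, fun v => (hC v).compl, ?_⟩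
    have : Bᶜ ∆ lab D r (fun v => (C v)ᶜ) = B ∆ lab D r C := by
      ext z
      simp only [Set.mem_symmDiff, lab, mem_ofPred_eq, mem_compl_iff]
      tauto
    rw [this]
    exact hC2
  · intro f hd hf ih ε hε
    -- the tail
    obtain ⟨n, hn⟩ : ∃ n : ℕ, (μ.prod ν).real ((⋃ i, f i) \ ⋃ i ∈ Finset.range n, f i) < ε / 2 := by
      have hmono : Monotone (fun n : ℕ => ⋃ i ∈ Finset.range n, f i) := by
        intro a b hab
        apply biUnion_subset_biUnion_left
        intro i hi
        simp only [Finset.coe_range, mem_Iio] at hi ⊢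
        exact lt_of_lt_of_le hi hab
      have hU : (⋃ n : ℕ, ⋃ i ∈ Finset.range n, f i) = ⋃ i, f i := by
        ext z
        simp only [mem_iUnion, Finset.mem_range, exists_prop]
        constructor
        · rintro ⟨n, i, _, h⟩
          exact ⟨i, h⟩
        · rintro ⟨i, h⟩
          exact ⟨i + 1, i, by omega, h⟩
      have h1 : Tendsto (fun n : ℕ => (μ.prod ν) (⋃ i ∈ Finset.range n, f i)) atTop
          (𝓝 ((μ.prod ν) (⋃ i, f i))) := by
        have := tendsto_measure_iUnion_atTop (μ := μ.prod ν) hmono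
        rwa [hU] at this
      have h2 := (ENNReal.tendsto_toReal (measure_ne_top (μ.prod ν) (⋃ i, f i))).comp h1
      have h3 := (Metric.tendsto_nhds.1 h2 (ε / 2) (by positivity)).exists
      obtain ⟨n, hn⟩ := h3
      refine ⟨n, ?_⟩
      have hsub : (⋃ i ∈ Finset.range n, f i) ⊆ ⋃ i, f i := by
        apply iUnion₂_subset
        intro i _
        exact subset_iUnion f i
      have hm : MeasurableSet (⋃ i ∈ Finset.range n, f i) :=
        Finset.measurableSet_biUnion _ fun i _ => hf i
      rw [measureReal_sdiff hsub hm]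
      rw [Function.comp_apply, Real.dist_eq, abs_lt] at hn
      have h4 : (μ.prod ν).real (⋃ i ∈ Finset.range n, f i) = ((μ.prod ν) (⋃ i ∈ Finset.range n, f i)).toReal := rfl
      have h5 : (μ.prod ν).real (⋃ i, f i) = ((μ.prod ν) (⋃ i, f i)).toReal := rfl
      linarith [hn.1]
    have hε' : 0 < ε / (2 * (n + 1)) := by positivity
    choose r hr using fun i => ih i (ε / (2 * (n + 1))) hε'
    refine ⟨(Finset.range n).sup r, fun r' hr' => ?_⟩
    have h1 : ∀ i : ℕ, ∃ C : (Fin r' → ZMod 2) → Set X, (∀ v, MeasurableSet (C v)) ∧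
        (i < n → (μ.prod ν).real (f i ∆ lab D r' C) < ε / (2 * (n + 1))) := by
      intro i
      by_cases hi : i < n
      · obtain ⟨C, hC, hC2⟩ := hr i r' ((Finset.le_sup (Finset.mem_range.2 hi)).trans hr')
        exact ⟨C, hC, fun _ => hC2⟩
      · exact ⟨fun _ => ∅, fun _ => MeasurableSet.empty, fun h => absurd h hi⟩
    choose C hC hC2 using h1
    refine ⟨fun v => ⋃ i ∈ Finset.range n, C i v, fun v => Finset.measurableSet_biUnion _ fun i _ => hC i v, ?_⟩
    have hsub : (⋃ i, f i) ∆ lab D r' (fun v => ⋃ i ∈ Finset.range n, C i v) ⊆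
        ((⋃ i, f i) \ ⋃ i ∈ Finset.range n, f i) ∪ ⋃ i ∈ Finset.range n, (f i ∆ lab D r' (C i)) := by
      intro z hz
      by_contra hc
      rw [mem_union, not_or] at hc
      obtain ⟨hc1, hc2⟩ := hc
      have h2 : ∀ i < n, (z ∈ f i ↔ z ∈ lab D r' (C i)) := by
        intro i hi
        by_contra h
        apply hc2
        refine mem_biUnion (show i ∈ Finset.range n from Finset.mem_range.2 hi) ?_
        rw [Set.mem_symmDiff]
        tauto
      rw [Set.mem_symmDiff] at hz
      rcases hz with ⟨h3, h4⟩ | ⟨h3, h4⟩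
      · have h5 : z ∈ ⋃ i ∈ Finset.range n, f i := by
          by_contra h
          exact hc1 ⟨h3, h⟩
        obtain ⟨i, hi, h6⟩ := mem_iUnion₂.1 h5
        apply h4
        rw [Finset.mem_range] at hi
        have h7 := (h2 i hi).1 h6
        show z.1 ∈ ⋃ i ∈ Finset.range n, C i (D.v r' z.2)
        exact mem_biUnion (show i ∈ Finset.range n from Finset.mem_range.2 hi) h7
      · have h5 : z.1 ∈ ⋃ i ∈ Finset.range n, C i (D.v r' z.2) := h3
        obtain ⟨i, hi, h6⟩ := mem_iUnion₂.1 h5
        rw [Finset.mem_range] at hi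
        exact h4 (mem_iUnion.2 ⟨i, (h2 i hi).2 h6⟩)
    refine lt_of_le_of_lt ((measureReal_mono hsub).trans (measureReal_union_le _ _)) ?_
    have h6 : (μ.prod ν).real (⋃ i ∈ Finset.range n, (f i ∆ lab D r' (C i))) ≤ n * (ε / (2 * (n + 1))) := by
      refine (measureReal_biUnion_finset_le _ _).trans ?_
      refine (Finset.sum_le_sum fun i hi => (hC2 i (Finset.mem_range.1 hi)).le).trans ?_
      simp
    have h7 : n * (ε / (2 * (n + 1))) ≤ ε / 2 := by
      have : (0 : ℝ) ≤ n := Nat.cast_nonneg _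
      rw [mul_div_assoc', div_le_div_iff₀ (by positivity) (by positivity)]
      nlinarith
    linarith

end

end Pool.Agent.E8helper86.MM
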