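import Mathlib
import Pool.Agent.E8helper86.MM.Approx

set_option autoImplicit false
set_option linter.unusedSectionVars false
set_option linter.unusedVariables false

/-!
The main estimate for the correlations of an extension.
-/

namespace Pool.Agent.E8helper86.MM

open MeasureTheory Set Filter Topology
open scoped ENNReal symmDiff

/-- mixing of order `k` -/
def MixOrd {Z : Type*} [MeasurableSpace Z] (m : Measure Z) (S : Z → Z) (k : ℕ) : Prop :=
  ∀ A : Fin (k + 1) → Set Z, (∀ i, MeasurableSet (A i)) → ∀ ε : ℝ, 0 < ε → ∃ N : ℕ, ∀ n : Fin (k + 1) → ℕ,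
    n 0 = 0 → (∀ i : Fin k, n i.castSucc + N ≤ n i.succ) →
    |m.real (⋂ i, S^[n i] ⁻¹' A i) - ∏ i, m.real (A i)| < ε

theorem MixOrd.mix2 {Z : Type*} [MeasurableSpace Z] {m : Measure Z} [IsProbabilityMeasure m] {S : Z → Z} {k : ℕ}
    (hk : 1 ≤ k) (h : MixOrd m S k) : Mix2 m S := by
  intro A B hA hB ε hε
  obtain ⟨k, rfl⟩ := Nat.exists_eq_add_of_le' hk
  obtain ⟨N, hN⟩ := h (Fin.cons A (Fin.cons B fun _ => univ)) (by
    intro i
    refine Fin.cases ?_ (fun i => ?_) i
    · exact hA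
    · refine Fin.cases ?_ (fun i => ?_) i
      · exact hB
      · exact MeasurableSet.univ) ε hε
  refine ⟨N, fun n hn => ?_⟩
  have h1 := hN (Fin.cons 0 fun i : Fin (k + 1) => n + i * N) rfl (by
    intro i
    refine Fin.cases ?_ (fun i => ?_) i
    · simp only [Fin.castSucc_zero, Fin.cons_zero, Fin.cons_succ]
      simpa using hn
    · simp only [Fin.castSucc_succ, Fin.cons_succ]
      simp only [Fin.val_succ, Fin.val_castSucc]
      nlinarith)
  have h2 : (⋂ i, S^[(Fin.cons 0 (fun i : Fin (k + 1) => n + i * N) : Fin (k + 2) → ℕ) i] ⁻¹'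
      ((Fin.cons A (Fin.cons B fun _ => univ) : Fin (k + 2) → Set Z) i)) = A ∩ S^[n] ⁻¹' B := by
    ext z
    simp [Fin.forall_fin_succ]
  rw [h2] at h1
  simpa [Fin.prod_univ_succ] using h1

theorem prod_le {ι : Type*} (s : Finset ι) (x y : ι → ℝ) (e : ℝ) (he : 0 ≤ e) (hx0 : ∀ i, 0 ≤ x i)
    (hx1 : ∀ i, x i ≤ 1) (hy0 : ∀ i, 0 ≤ y i) (hy1 : ∀ i, y i ≤ 1) (hxy : ∀ i, x i ≤ y i + e) :
    ∏ i ∈ s, x i ≤ ∏ i ∈ s, y i + s.card * e := by
  classical
  induction s using Finset.induction_on with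
  | empty => simp
  | insert a s ha ih =>
    rw [Finset.prod_insert ha, Finset.prod_insert ha, Finset.card_insert_of_notMem ha]
    have h1 : 0 ≤ ∏ i ∈ s, x i := Finset.prod_nonneg fun i _ => hx0 i
    have h2 : ∏ i ∈ s, x i ≤ 1 := Finset.prod_le_one (fun i _ => hx0 i) fun i _ => hx1 i
    have h3 : 0 ≤ (s.card : ℝ) * e := by positivity
    have h4 : x a * ∏ i ∈ s, x i ≤ (y a + e) * ∏ i ∈ s, x i := mul_le_mul_of_nonneg_right (hxy a) h1
    have h5 : y a * ∏ i ∈ s, x i ≤ y a * (∏ i ∈ s, y i + s.card * e) := mul_le_mul_of_nonneg_left ih (hy0 a)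
    have h6 : y a * (s.card * e) ≤ s.card * e := by nlinarith [hy1 a, hy0 a]
    have h7 : e * ∏ i ∈ s, x i ≤ e := by nlinarith
    push_cast
    nlinarith

theorem prod_close {ι : Type*} (s : Finset ι) (x y : ι → ℝ) (e : ℝ) (he : 0 ≤ e) (hx0 : ∀ i, 0 ≤ x i)
    (hx1 : ∀ i, x i ≤ 1) (hy0 : ∀ i, 0 ≤ y i) (hy1 : ∀ i, y i ≤ 1) (hxy : ∀ i, |x i - y i| ≤ e) :
    |∏ i ∈ s, x i - ∏ i ∈ s, y i| ≤ s.card * e := by
  have h1 := prod_le s x y e he hx0 hx1 hy0 hy1 (fun i => by linarith [(abs_le.1 (hxy i)).2])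
  have h2 := prod_le s y x e he hy0 hy1 hx0 hx1 (fun i => by linarith [(abs_le.1 (hxy i)).1])
  rw [abs_le]
  constructor <;> linarith

theorem inter_close {Z : Type*} [MeasurableSpace Z] (m : Measure Z) [IsProbabilityMeasure m] {k : ℕ}
    (A B : Fin k → Set Z) (e : ℝ) (h : ∀ i, m.real (A i ∆ B i) ≤ e) :
    |m.real (⋂ i, A i) - m.real (⋂ i, B i)| ≤ k * e := by
  refine (abs_real_le (E := ⋃ i, A i ∆ B i) ?_ ?_).trans ?_
  · intro z hz
    rw [mem_iInter] at hz
    by_cases h1 : z ∈ ⋃ i, A i ∆ B i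
    · exact Or.inr h1
    · left
      rw [mem_iInter]
      intro i
      by_contra h2
      exact h1 (mem_iUnion.2 ⟨i, Set.mem_symmDiff.2 (Or.inl ⟨hz i, h2⟩)⟩)
  · intro z hz
    rw [mem_iInter] at hz
    by_cases h1 : z ∈ ⋃ i, A i ∆ B i
    · exact Or.inr h1
    · left
      rw [mem_iInter]
      intro i
      by_contra h2
      exact h1 (mem_iUnion.2 ⟨i, Set.mem_symmDiff.2 (Or.inr ⟨hz i, h2⟩)⟩)
  · refine (measureReal_iUnion_fintype_le _).trans ?_
    refine (Finset.sum_le_sum fun i _ => h i).trans ?_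
    simp

/-- the main estimate -/
theorem est {Z X V : Type*} [MeasurableSpace Z] [MeasurableSpace X] [Fintype V] (m : Measure Z) (μ : Measure X)
    [IsProbabilityMeasure m] [IsProbabilityMeasure μ] (S : Z → Z) (hS : MeasurePreserving S m m) (T : X → X)
    (hT : MeasurePreserving T μ μ) (π : Z → X) (hπ : MeasurePreserving π m μ) (hc : ∀ z, π (S z) = T (π z))
    (w : Z → V) (hw : ∀ v, MeasurableSet {z | w z = v}) (k M P : ℕ) (hM : 0 < M) (B : Fin (k + 1) → Set Z)
    (hB : ∀ i, MeasurableSet (B i)) (D : Fin (k + 1) → V → Set X) (hD : ∀ i v, MeasurableSet (D i v))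
    (η η' e : ℝ) (he : 0 ≤ e) (hη' : 0 ≤ η')
    (h1 : ∀ i (a : Fin M), m.real ((S^[(a : ℕ) * P] ⁻¹' B i) ∆ {z | T^[(a : ℕ) * P] (π z) ∈ D i (w z)}) ≤ η)
    (h2 : ∀ i v, |μ.real (D i v) - m.real (B i)| ≤ η') (n : Fin (k + 1) → ℕ)
    (h3 : ∀ (u : Fin (k + 1) → V) (a : Fin M), ∏ i, μ.real (D i (u i)) - e ≤
      μ.real (⋂ i, T^[n i] ⁻¹' (T^[(a : ℕ) * P] ⁻¹' D i (u i))))
    (h4 : ∀ (u : Fin (k + 1) → V) (a b : Fin M), a ≠ b →
      μ.real ((⋂ i, T^[n i] ⁻¹' (T^[(a : ℕ) * P] ⁻¹' D i (u i))) ∩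
        (⋂ i, T^[n i] ⁻¹' (T^[(b : ℕ) * P] ⁻¹' D i (u i)))) ≤ (∏ i, μ.real (D i (u i))) ^ 2 + e) :
    |m.real (⋂ i, S^[n i] ⁻¹' B i) - ∏ i, m.real (B i)| ≤
      (k + 1) * η + (Fintype.card V : ℝ) ^ (k + 1) * Real.sqrt (1 / M + 3 * e) + (k + 1) * η' := by
  classical
  have hM' : (0 : ℝ) < M := by exact_mod_cast hM
  have hcn : ∀ (n : ℕ) z, π (S^[n] z) = T^[n] (π z) := by
    intro n
    induction n with
    | zero => intro z; rfl
    | succ n ih => intro z; rw [Function.iterate_succ_apply', Function.iterate_succ_apply', hc, ih]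
  set G : Fin (k + 1) → Fin M → Set Z := fun i a => {z | T^[(a : ℕ) * P] (π z) ∈ D i (w z)} with hG
  have hGm : ∀ i a, MeasurableSet (G i a) := by
    intro i a
    have : G i a = ⋃ v, {z | w z = v} ∩ π ⁻¹' (T^[(a : ℕ) * P] ⁻¹' D i v) := by
      ext z
      simp [hG]
    rw [this]
    exact MeasurableSet.iUnion fun v => (hw v).inter (hπ.measurable ((hT.measurable.iterate _) (hD i v)))
  set J : Fin M → ℝ := fun a => m.real (⋂ i, S^[n i] ⁻¹' G i a) with hJ
  set p : ℝ := m.real (⋂ i, S^[n i] ⁻¹' B i) with hp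
  -- step 1
  have s1 : ∀ a, |p - J a| ≤ (k + 1) * η := by
    intro a
    have e1 : p = m.real (⋂ i, S^[n i] ⁻¹' (S^[(a : ℕ) * P] ⁻¹' B i)) := by
      have hm : MeasurableSet (⋂ i, S^[n i] ⁻¹' B i) :=
        MeasurableSet.iInter fun i => (hS.measurable.iterate _) (hB i)
      rw [hp, ← pre_real (hS.iterate ((a : ℕ) * P)) hm]
      congr 1
      ext z
      simp only [mem_preimage, mem_iInter]
      refine forall_congr' fun i => ?_
      rw [← Function.iterate_add_apply, ← Function.iterate_add_apply, Nat.add_comm]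
    rw [e1, hJ]
    have := inter_close m (fun i => S^[n i] ⁻¹' (S^[(a : ℕ) * P] ⁻¹' B i)) (fun i => S^[n i] ⁻¹' G i a) η (by
      intro i
      have e2 : (S^[n i] ⁻¹' (S^[(a : ℕ) * P] ⁻¹' B i)) ∆ (S^[n i] ⁻¹' G i a) =
          S^[n i] ⁻¹' ((S^[(a : ℕ) * P] ⁻¹' B i) ∆ G i a) := by
        ext z
        simp [Set.mem_symmDiff]
      rw [e2, pre_real (hS.iterate _) (((hS.measurable.iterate _) (hB i)).symmDiff (hGm i a))]
      exact h1 i a)
    push_cast at this
    exact this
  -- the label classes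
  set W : (Fin (k + 1) → V) → Set Z := fun u => {z | (fun i => w (S^[n i] z)) = u} with hW
  have hWm : ∀ u, MeasurableSet (W u) := by
    intro u
    have : W u = ⋂ i, S^[n i] ⁻¹' {z | w z = u i} := by
      ext z
      simp [hW, funext_iff]
    rw [this]
    exact MeasurableSet.iInter fun i => (hS.measurable.iterate _) (hw _)
  set R : (Fin (k + 1) → V) → Fin M → Set X := fun u a => ⋂ i, T^[n i] ⁻¹' (T^[(a : ℕ) * P] ⁻¹' D i (u i)) with hR
  have hRm : ∀ u a, MeasurableSet (R u a) := fun u a =>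
    MeasurableSet.iInter fun i => (hT.measurable.iterate _) ((hT.measurable.iterate _) (hD _ _))
  have hWsum : ∀ A : Set Z, MeasurableSet A → m.real A = ∑ u, m.real (W u ∩ A) := by
    intro A hA
    have e1 : A = ⋃ u ∈ (Finset.univ : Finset (Fin (k + 1) → V)), W u ∩ A := by
      ext z
      simp [hW]
    conv_lhs => rw [e1]
    rw [measureReal_biUnion_finset]
    · intro u _ u' _ huu'
      rw [Function.onFun, Set.disjoint_left]
      rintro z ⟨hz1, _⟩ ⟨hz2, _⟩
      apply huu'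
      rw [← (show (fun i => w (S^[n i] z)) = u from hz1)]
      exact hz2
    · intro u _
      exact (hWm u).inter hA
  have hJsum : ∀ a, J a = ∑ u, m.real (W u ∩ π ⁻¹' R u a) := by
    intro a
    have hm : MeasurableSet (⋂ i, S^[n i] ⁻¹' G i a) :=
      MeasurableSet.iInter fun i => (hS.measurable.iterate _) (hGm i a)
    rw [hJ]
    simp only
    rw [hWsum _ hm]
    refine Finset.sum_congr rfl fun u _ => ?_
    congr 1
    ext z
    simp only [mem_inter_iff, mem_iInter, mem_preimage]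
    refine and_congr_right fun hz => ?_
    have hz' : ∀ i, w (S^[n i] z) = u i := fun i => congrFun (show (fun i => w (S^[n i] z)) = u from hz) i
    simp only [hG, hR, mem_ofPred_eq, mem_iInter, mem_preimage, hz', hcn]
  -- step 2
  set c : (Fin (k + 1) → V) → ℝ := fun u => ∏ i, μ.real (D i (u i)) with hcdef
  have hc0 : ∀ u, 0 ≤ c u := fun u => Finset.prod_nonneg fun i _ => measureReal_nonneg
  have hc1 : ∀ u, c u ≤ 1 := fun u => Finset.prod_le_one (fun i _ => measureReal_nonneg) fun i _ => measureReal_le_one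
  have s2 : ∀ u, |(∑ a, m.real (W u ∩ π ⁻¹' R u a)) / M - c u * m.real (W u)| ≤ Real.sqrt (1 / M + 3 * e) := by
    intro u
    refine lln m M hM (fun a => π ⁻¹' R u a) (fun a => hπ.measurable (hRm u a)) (c u) e (hc0 u) (hc1 u) he ?_ ?_
      (W u) (hWm u)
    · intro a
      rw [measureReal_def, hπ.measure_preimage (hRm u a).nullMeasurableSet, ← measureReal_def]
      exact h3 u a
    · intro a b hab
      rw [← preimage_inter, measureReal_def, hπ.measure_preimage ((hRm u a).inter (hRm u b)).nullMeasurableSet,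
        ← measureReal_def]
      exact h4 u a b hab
  have s3 : |(∑ a, J a) / M - ∑ u, c u * m.real (W u)| ≤
      (Fintype.card V : ℝ) ^ (k + 1) * Real.sqrt (1 / M + 3 * e) := by
    have e1 : (∑ a, J a) / M - ∑ u, c u * m.real (W u) =
        ∑ u, ((∑ a, m.real (W u ∩ π ⁻¹' R u a)) / M - c u * m.real (W u)) := by
      rw [Finset.sum_sub_distrib, ← Finset.sum_div]
      congr 2
      rw [Finset.sum_comm]
      exact Finset.sum_congr rfl fun a _ => hJsum a
    rw [e1]
    refine (Finset.abs_sum_le_sum_abs _ _).trans ?_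
    refine (Finset.sum_le_sum fun u _ => s2 u).trans ?_
    rw [Finset.sum_const, Finset.card_univ, nsmul_eq_mul, Fintype.card_fun, Fintype.card_fin]
    push_cast
    exact le_rfl
  have s4 : |∑ u, c u * m.real (W u) - ∏ i, m.real (B i)| ≤ (k + 1) * η' := by
    have e0 : ∑ u, m.real (W u) = 1 := by
      have := hWsum univ MeasurableSet.univ
      simp only [inter_univ] at this
      rw [← this, probReal_univ]
    have e1 : ∑ u, c u * m.real (W u) - ∏ i, m.real (B i) = ∑ u, (c u - ∏ i, m.real (B i)) * m.real (W u) := by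
      simp only [sub_mul]
      rw [Finset.sum_sub_distrib, ← Finset.mul_sum, e0, mul_one]
    rw [e1]
    refine (Finset.abs_sum_le_sum_abs _ _).trans ?_
    have e2 : ∀ u ∈ (Finset.univ : Finset (Fin (k + 1) → V)),
        |(c u - ∏ i, m.real (B i)) * m.real (W u)| ≤ ((k + 1) * η') * m.real (W u) := by
      intro u _
      rw [abs_mul, abs_of_nonneg (measureReal_nonneg (μ := m) (s := W u))]
      apply mul_le_mul_of_nonneg_right _ measureReal_nonneg
      have := prod_close Finset.univ (fun i => μ.real (D i (u i))) (fun i => m.real (B i)) η' hη'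
        (fun i => measureReal_nonneg) (fun i => measureReal_le_one) (fun i => measureReal_nonneg)
        (fun i => measureReal_le_one) (fun i => h2 i (u i))
      rw [Finset.card_univ, Fintype.card_fin] at this
      push_cast at this
      exact this
    refine (Finset.sum_le_sum e2).trans ?_
    rw [← Finset.mul_sum, e0, mul_one]
  have s5 : |p - (∑ a, J a) / M| ≤ (k + 1) * η := by
    have e1 : p - (∑ a, J a) / M = (∑ a, (p - J a)) / M := by
      rw [Finset.sum_sub_distrib, sub_div]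
      simp
      field_simp
    rw [e1, abs_div, abs_of_pos hM', div_le_iff₀ hM']
    refine (Finset.abs_sum_le_sum_abs _ _).trans ?_
    refine (Finset.sum_le_sum fun a _ => s1 a).trans ?_
    simp
    linarith
  calc |p - ∏ i, m.real (B i)| ≤ |p - (∑ a, J a) / M| + |(∑ a, J a) / M - ∏ i, m.real (B i)| := abs_sub_le _ _ _
    _ ≤ |p - (∑ a, J a) / M| + (|(∑ a, J a) / M - ∑ u, c u * m.real (W u)| +
        |∑ u, c u * m.real (W u) - ∏ i, m.real (B i)|) := by
      gcongr
      exact abs_sub_le _ _ _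
    _ ≤ _ := by linarith

end Pool.Agent.E8helper86.MM
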