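import Mathlib
import Pool.Agent.W744.NG.Theta
import Pool.Agent.E8helper86.MM.Est

set_option autoImplicit false
set_option linter.unusedSectionVars false
set_option linter.unusedVariables false

/-!
Near every cocycle there is one with a neighbourhood on which the correlations are uniformly small.
-/

namespace Pool.Agent.E8helper86.MM

open MeasureTheory Set Filter Topology
open scoped ENNReal symmDiff
open Pool.H359R3 Pool.H359R3.IX
open Pool.Agent.W744.NG

section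
variable {X : Type} [MeasurableSpace X] {μ : Measure X} [IsProbabilityMeasure μ]

theorem exists_data (T : AU μ) (k : ℕ) (hk : 1 ≤ k) (hT : MixOrd μ T.1 k) {V : Type} [Fintype V]
    (D : Fin (k + 1) → V → Set X) (hD : ∀ i v, MeasurableSet (D i v)) (M : ℕ) (e : ℝ) (he : 0 < e) :
    ∃ P N : ℕ, ∀ n : Fin (k + 1) → ℕ, n 0 = 0 → (∀ i : Fin k, n i.castSucc + N ≤ n i.succ) →
      (∀ (u : Fin (k + 1) → V) (a : Fin M), ∏ i, μ.real (D i (u i)) - e ≤
        μ.real (⋂ i, (T.1 : X → X)^[n i] ⁻¹' ((T.1 : X → X)^[(a : ℕ) * P] ⁻¹' D i (u i)))) ∧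
      (∀ (u : Fin (k + 1) → V) (a b : Fin M), a ≠ b →
        μ.real ((⋂ i, (T.1 : X → X)^[n i] ⁻¹' ((T.1 : X → X)^[(a : ℕ) * P] ⁻¹' D i (u i))) ∩
          (⋂ i, (T.1 : X → X)^[n i] ⁻¹' ((T.1 : X → X)^[(b : ℕ) * P] ⁻¹' D i (u i)))) ≤
            (∏ i, μ.real (D i (u i))) ^ 2 + e) := by
  classical
  obtain ⟨P, hP⟩ := exists_times T (hT.mix2 hk) (fun p : Fin (k + 1) × V => D p.1 p.2) (fun p => hD p.1 p.2)
    (e / (2 * (k + 1))) (by positivity)
  have hE : ∀ (q : (Fin (k + 1) → V) × Fin M × Fin M), ∃ N : ℕ, ∀ n : Fin (k + 1) → ℕ, n 0 = 0 →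
      (∀ i : Fin k, n i.castSucc + N ≤ n i.succ) →
      |μ.real (⋂ i, (T.1 : X → X)^[n i] ⁻¹' (((T.1 : X → X)^[(q.2.1 : ℕ) * P] ⁻¹' D i (q.1 i)) ∩
        ((T.1 : X → X)^[(q.2.2 : ℕ) * P] ⁻¹' D i (q.1 i)))) -
        ∏ i, μ.real (((T.1 : X → X)^[(q.2.1 : ℕ) * P] ⁻¹' D i (q.1 i)) ∩
        ((T.1 : X → X)^[(q.2.2 : ℕ) * P] ⁻¹' D i (q.1 i)))| < e / 2 := fun q =>
    hT _ (fun i => ((T.1.measurable.iterate _) (hD _ _)).inter ((T.1.measurable.iterate _) (hD _ _))) _
      (by positivity)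
  choose N hN using hE
  refine ⟨P, Finset.univ.sup N, fun n hn0 hn => ⟨fun u a => ?_, fun u a b hab => ?_⟩⟩
  · have h1 := hN (u, a, a) n hn0 (fun i => le_trans (Nat.add_le_add_left (Finset.le_sup (Finset.mem_univ _)) _) (hn i))
    simp only [inter_self] at h1
    have h2 : ∀ i, μ.real ((T.1 : X → X)^[(a : ℕ) * P] ⁻¹' D i (u i)) = μ.real (D i (u i)) := fun i =>
      pre_real (T.2.iterate _) (hD _ _)
    simp only [h2] at h1
    have h3 := (abs_lt.1 h1).1
    linarith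
  · have h1 := hN (u, a, b) n hn0 (fun i => le_trans (Nat.add_le_add_left (Finset.le_sup (Finset.mem_univ _)) _) (hn i))
    simp only at h1
    have h3 := (abs_lt.1 h1).2
    have h4 : (⋂ i, (T.1 : X → X)^[n i] ⁻¹' ((T.1 : X → X)^[(a : ℕ) * P] ⁻¹' D i (u i))) ∩
          (⋂ i, (T.1 : X → X)^[n i] ⁻¹' ((T.1 : X → X)^[(b : ℕ) * P] ⁻¹' D i (u i))) =
        ⋂ i, (T.1 : X → X)^[n i] ⁻¹' (((T.1 : X → X)^[(a : ℕ) * P] ⁻¹' D i (u i)) ∩
        ((T.1 : X → X)^[(b : ℕ) * P] ⁻¹' D i (u i))) := by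
      rw [← iInter_inter_distrib]
      rfl
    rw [h4]
    have h5 := prod_le Finset.univ (fun i => μ.real (((T.1 : X → X)^[(a : ℕ) * P] ⁻¹' D i (u i)) ∩
        ((T.1 : X → X)^[(b : ℕ) * P] ⁻¹' D i (u i)))) (fun i => μ.real (D i (u i)) ^ 2) (e / (2 * (k + 1)))
        (by positivity) (fun i => measureReal_nonneg) (fun i => measureReal_le_one) (fun i => sq_nonneg _)
        (fun i => pow_le_one₀ measureReal_nonneg measureReal_le_one)
        (fun i => hP (i, u i) a b (fun h => hab (Fin.ext h)))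
    rw [Finset.prod_pow, Finset.card_univ, Fintype.card_fin] at h5
    have h6 : ((k + 1 : ℕ) : ℝ) * (e / (2 * (k + 1))) = e / 2 := by
      push_cast
      field_simp
    rw [h6] at h5
    linarith

end

section
variable {X Y : Type} [MeasurableSpace X] [StandardBorelSpace X] [MeasurableSpace Y] [StandardBorelSpace Y]
  {μ : Measure X} {ν : Measure Y} [IsProbabilityMeasure μ] [IsProbabilityMeasure ν]

theorem key [NullSingletonClass μ] (T : AU μ) (k : ℕ) (hk : 1 ≤ k) (hT : MixOrd μ T.1 k) (D : YS ν)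
    (B : Fin (k + 1) → Set (X × Y)) (hB : ∀ i, MeasurableSet (B i)) (Φ : Coc X ν) (ε δ : ℝ) (hε : 0 < ε)
    (hδ : 0 < δ) :
    ∃ α : Coc X ν, (∃ E : Set X, MeasurableSet E ∧ μ.real E < δ ∧ ∀ x, x ∉ E → α.1 x = Φ.1 x) ∧
      ∃ (η : ℝ) (M P N : ℕ), 0 < η ∧ ∀ Ψ : Coc X ν,
        (∀ i, ∀ a < M, (μ.prod ν).real (((sk (T.1 : X → X) Ψ)^[a * P] ⁻¹' B i) ∆
          ((sk (T.1 : X → X) α)^[a * P] ⁻¹' B i)) ≤ η) →
        ∀ n : Fin (k + 1) → ℕ, n 0 = 0 → (∀ i : Fin k, n i.castSucc + N ≤ n i.succ) →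
          |(μ.prod ν).real (⋂ i, (sk (T.1 : X → X) Ψ)^[n i] ⁻¹' B i) - ∏ i, (μ.prod ν).real (B i)| < ε := by
  classical
  -- block coboundary
  obtain ⟨τ, hτ, hτδ⟩ := exists_tau T (hT.mix2 hk) (δ / 2) (by positivity)
  obtain ⟨θ, hθ⟩ := Theta.theta X Y μ ν T Φ τ hτ
  have hΘ : MeasurePreserving (sk ((oneA : AU μ).1 : X → X) θ) (μ.prod ν) (μ.prod ν) := sk_mp oneA θ
  -- approximation
  obtain ⟨ε1, hε1def⟩ : ∃ ε1 : ℝ, ε1 = ε / (8 * (k + 1)) := ⟨_, rfl⟩
  have hε1 : 0 < ε1 := by rw [hε1def]; positivity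
  have happ := fun i => approx (μ := μ) D ((sk ((oneA : AU μ).1 : X → X) θ) ⁻¹' B i) (hΘ.measurable (hB i)) ε1 hε1
  choose r0 hr0 using happ
  obtain ⟨r, hr⟩ : ∃ r : ℕ, ∀ i, r0 i ≤ r := ⟨Finset.univ.sup r0, fun i => Finset.le_sup (Finset.mem_univ i)⟩
  choose C hC hC2 using fun i => hr0 i r (hr i)
  -- the gauge
  obtain ⟨ε2, hε2def⟩ : ∃ ε2 : ℝ, ε2 = ε / (8 * (k + 1) * 2 ^ r) := ⟨_, rfl⟩
  have hε2 : 0 < ε2 := by rw [hε2def]; positivity
  obtain ⟨Γ, hΓm, hΓδ, hΓ⟩ := exists_gamma T (hT.mix2 hk) r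
    (fun p : Fin (k + 1) × (Fin r → ZMod 2) => C p.1 p.2) (fun p => hC p.1 p.2) (δ / 2) ε2 (by positivity) hε2
  obtain ⟨α, hα⟩ := Theta.alpha X Y μ ν T θ D r Γ hΓm
  -- the agreement
  have hτm : MeasurableSet {x | τ (T.1 x) ≠ τ x + 1} := by
    have h1 : Measurable fun x => τ (T.1 x) := hτ.comp T.1.measurable
    have h2 : Measurable fun x => τ x + 1 := (measurable_from_top (f := fun n : ℕ => n + 1)).comp hτ
    exact (measurableSet_eq_fun h1 h2).compl
  have hΓE : MeasurableSet {x | Γ (T.1 x) ≠ Γ x} := by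
    have : {x | Γ (T.1 x) ≠ Γ x} = (⋃ v, ((T.1 : X → X) ⁻¹' {x | Γ x = v}) ∩ {x | Γ x = v})ᶜ := by
      ext x
      simp
      exact not_congr ⟨Eq.symm, Eq.symm⟩
    rw [this]
    exact (MeasurableSet.iUnion fun v => (T.1.measurable (hΓm v)).inter (hΓm v)).compl
  refine ⟨α, ⟨{x | τ (T.1 x) ≠ τ x + 1} ∪ {x | Γ (T.1 x) ≠ Γ x}, hτm.union hΓE, ?_, ?_⟩, ?_⟩
  · refine lt_of_le_of_lt (measureReal_union_le _ _) ?_
    linarith
  · intro x hx
    rw [mem_union, not_or, mem_ofPred_eq, mem_ofPred_eq, not_not, not_not] at hx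
    obtain ⟨hx1, hx2⟩ := hx
    apply Subtype.ext
    apply MeasurableEquiv.ext
    funext y
    rw [hα x y, hx2, MeasurableEquiv.symm_apply_apply, hθ x hx1, MeasurableEquiv.apply_symm_apply]
  -- the invariant coordinate
  set wY : X × Y → Y := fun z => (D.act r (Γ z.1)).1 ((θ.1 z.1).1.symm z.2) with hwY
  have hinv : ∀ z, wY (sk (T.1 : X → X) α z) = wY z := by
    intro z
    show (D.act r (Γ (T.1 z.1))).1 ((θ.1 (T.1 z.1)).1.symm ((α.1 z.1).1 z.2)) = _
    rw [hα, MeasurableEquiv.symm_apply_apply, MeasurableEquiv.apply_symm_apply]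
  have hinvn : ∀ (n : ℕ) z, wY ((sk (T.1 : X → X) α)^[n] z) = wY z := by
    intro n
    induction n with
    | zero => intro z; rfl
    | succ n ih => intro z; rw [Function.iterate_succ_apply', hinv, ih]
  have hfst : ∀ (Ψ : Coc X ν) (n : ℕ) z, ((sk (T.1 : X → X) Ψ)^[n] z).1 = (T.1 : X → X)^[n] z.1 := by
    intro Ψ n
    induction n with
    | zero => intro z; rfl
    | succ n ih => intro z; rw [Function.iterate_succ_apply', Function.iterate_succ_apply', ← ih z]; rfl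
  -- the inverse of `Θ`
  have hΘs : MeasurePreserving (skA (oneA : AU μ) θ).1.symm (μ.prod ν) (μ.prod ν) := mp_symm (skA (oneA : AU μ) θ)
  have hΘs_apply : ∀ z, (skA (oneA : AU μ) θ).1.symm z = (z.1, (θ.1 z.1).1.symm z.2) := by
    intro z
    rw [MeasurableEquiv.symm_apply_eq, skA_apply]
    show z = sk ((oneA : AU μ).1 : X → X) θ (z.1, (θ.1 z.1).1.symm z.2)
    unfold Pool.Agent.W744.NG.sk
    rw [MeasurableEquiv.apply_symm_apply]
    rfl
  -- labels
  set w : X × Y → (Fin r → ZMod 2) := fun z => D.v r (wY z) with hwdef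
  have hw_eq : ∀ z, w z = D.v r ((skA (oneA : AU μ) θ).1.symm z).2 + Γ z.1 := by
    intro z
    rw [hΘs_apply]
    show D.v r ((D.act r (Γ z.1)).1 ((θ.1 z.1).1.symm z.2)) = _
    rw [D.v_act]
  have hwm : ∀ v, MeasurableSet {z | w z = v} := by
    intro v
    have : {z | w z = v} = ⋃ v', ((skA (oneA : AU μ) θ).1.symm ⁻¹' (Prod.snd ⁻¹' {y | D.v r y = v'})) ∩
        (Prod.fst ⁻¹' {x | Γ x = v - v'}) := by
      ext z
      simp only [mem_ofPred_eq, mem_iUnion, mem_inter_iff, mem_preimage, hw_eq]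
      constructor
      · intro h
        exact ⟨_, rfl, by rw [← h]; abel⟩
      · rintro ⟨v', h1, h2⟩
        rw [h1, h2]
        abel
    rw [this]
    exact MeasurableSet.iUnion fun v' => (hΘs.measurable (measurable_snd (D.meas r v'))).inter
      (measurable_fst (hΓm _))
  set DD : Fin (k + 1) → (Fin r → ZMod 2) → Set X := fun i v => {x | x ∈ C i (v - Γ x)} with hDD
  have hDDm : ∀ i v, MeasurableSet (DD i v) := by
    intro i v
    have : DD i v = ⋃ u, C i (v - u) ∩ {x | Γ x = u} := by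
      ext x
      simp [hDD]
    rw [this]
    exact MeasurableSet.iUnion fun u => (hC i _).inter (hΓm u)
  -- the measure of `DD`
  have hDDval : ∀ i v, |μ.real (DD i v) - (μ.prod ν).real (B i)| ≤ 2 ^ r * ε2 + ε1 := by
    intro i v
    have e1 : μ.real (DD i v) = ∑ u, μ.real (C i (v - u) ∩ {x | Γ x = u}) := by
      have : DD i v = ⋃ u ∈ (Finset.univ : Finset (Fin r → ZMod 2)), C i (v - u) ∩ {x | Γ x = u} := by
        ext x
        simp [hDD]
      rw [this, measureReal_biUnion_finset]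
      · intro u _ u' _ huu'
        rw [Function.onFun, Set.disjoint_left]
        rintro x ⟨_, hx1⟩ ⟨_, hx2⟩
        apply huu'
        rw [← (show Γ x = u from hx1)]
        exact hx2
      · intro u _
        exact (hC i _).inter (hΓm u)
    have e2 : (μ.prod ν).real (lab D r (C i)) = ∑ u, μ.real (C i (v - u)) / 2 ^ r := by
      have h1 : lab D r (C i) = ⋃ u ∈ (Finset.univ : Finset (Fin r → ZMod 2)), C i u ×ˢ {y | D.v r y = u} := by
        ext z
        simp [lab]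
      rw [h1, measureReal_biUnion_finset]
      · have h2 : ∀ u, (μ.prod ν).real (C i u ×ˢ {y | D.v r y = u}) = μ.real (C i u) / 2 ^ r := by
          intro u
          rw [measureReal_prod_prod, D.unif r u]
          ring
        simp only [h2]
        exact (Equiv.sum_comp (Equiv.subLeft v) (fun u => μ.real (C i u) / 2 ^ r)).symm
      · intro u _ u' _ huu'
        rw [Function.onFun, Set.disjoint_left]
        rintro z ⟨_, hx1⟩ ⟨_, hx2⟩
        apply huu'
        rw [← (show D.v r z.2 = u from hx1)]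
        exact hx2
      · intro u _
        exact (hC i u).prod (D.meas r u)
    have e3 : |μ.real (DD i v) - (μ.prod ν).real (lab D r (C i))| ≤ 2 ^ r * ε2 := by
      rw [e1, e2, ← Finset.sum_sub_distrib]
      refine (Finset.abs_sum_le_sum_abs _ _).trans ?_
      refine (Finset.sum_le_sum fun u _ => hΓ (i, v - u) u).trans ?_
      rw [Finset.sum_const, Finset.card_univ, nsmul_eq_mul, Fintype.card_fun, ZMod.card, Fintype.card_fin]
      push_cast
      exact le_rfl
    have e4 : |(μ.prod ν).real (lab D r (C i)) - (μ.prod ν).real (B i)| ≤ ε1 := by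
      rw [← pre_real hΘ (hB i), abs_sub_comm]
      exact (abs_measureReal_sub_le_measureReal_symmDiff (hΘ.measurable (hB i)).nullMeasurableSet
        (lab_meas D r (C i) (hC i)).nullMeasurableSet).trans (hC2 i).le
    exact (abs_sub_le _ _ _).trans (add_le_add e3 e4)
  -- parameters
  obtain ⟨cV, hcV⟩ : ∃ cV : ℝ, cV = (Fintype.card (Fin r → ZMod 2) : ℝ) ^ (k + 1) := ⟨_, rfl⟩
  have hcV0 : 0 < cV := by
    rw [hcV]
    have : 0 < Fintype.card (Fin r → ZMod 2) := Fintype.card_pos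
    positivity
  obtain ⟨M, e, hM, he, hMe⟩ := exists_params (ε / (8 * cV)) (by positivity)
  obtain ⟨P, N, hPN⟩ := exists_data T k hk hT DD hDDm M e he
  refine ⟨ε1, M, P, N, hε1, fun Ψ hΨ n hn0 hn => ?_⟩
  obtain ⟨h3, h4⟩ := hPN n hn0 hn
  have hmain := est (μ.prod ν) μ (sk (T.1 : X → X) Ψ) (sk_mp T Ψ) T.1 T.2 Prod.fst measurePreserving_fst
    (fun z => rfl) w hwm k M P hM B hB DD hDDm (2 * ε1) (2 ^ r * ε2 + ε1) e he.le (by positivity) (by
      intro i a
      -- the error from `α` to the label sets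
      have h5 : (μ.prod ν).real (((sk (T.1 : X → X) α)^[(a : ℕ) * P] ⁻¹' B i) ∆
          {z : X × Y | (T.1 : X → X)^[(a : ℕ) * P] z.1 ∈ DD i (w z)}) ≤ ε1 := by
        set m := (a : ℕ) * P
        have h6 : ((sk (T.1 : X → X) α)^[m] ⁻¹' B i) ∆ {z : X × Y | (T.1 : X → X)^[m] z.1 ∈ DD i (w z)} =
            (fun z => (skA (oneA : AU μ) θ).1.symm ((sk (T.1 : X → X) α)^[m] z)) ⁻¹'
              (((sk ((oneA : AU μ).1 : X → X) θ) ⁻¹' B i) ∆ lab D r (C i)) := by
          ext z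
          have h7 : sk ((oneA : AU μ).1 : X → X) θ ((skA (oneA : AU μ) θ).1.symm ((sk (T.1 : X → X) α)^[m] z)) =
              (sk (T.1 : X → X) α)^[m] z := by
            rw [← skA_apply, MeasurableEquiv.apply_symm_apply]
          have h8 : (skA (oneA : AU μ) θ).1.symm ((sk (T.1 : X → X) α)^[m] z) ∈ lab D r (C i) ↔
              (T.1 : X → X)^[m] z.1 ∈ DD i (w z) := by
            have h9 : w ((sk (T.1 : X → X) α)^[m] z) = w z := by
              show D.v r (wY _) = D.v r (wY z)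
              rw [hinvn]
            have h10 := hw_eq ((sk (T.1 : X → X) α)^[m] z)
            rw [h9, hfst] at h10
            show ((skA (oneA : AU μ) θ).1.symm ((sk (T.1 : X → X) α)^[m] z)).1 ∈
              C i (D.v r ((skA (oneA : AU μ) θ).1.symm ((sk (T.1 : X → X) α)^[m] z)).2) ↔
              (T.1 : X → X)^[m] z.1 ∈ C i (w z - Γ ((T.1 : X → X)^[m] z.1))
            rw [h10, add_sub_cancel_right]
            have h11 : ((skA (oneA : AU μ) θ).1.symm ((sk (T.1 : X → X) α)^[m] z)).1 = (T.1 : X → X)^[m] z.1 := by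
              rw [hΘs_apply, hfst]
            rw [h11]
          simp only [Set.mem_symmDiff, mem_preimage, mem_ofPred_eq, h7, h8]
        have h13 : MeasurePreserving (fun z => (skA (oneA : AU μ) θ).1.symm ((sk (T.1 : X → X) α)^[m] z))
            (μ.prod ν) (μ.prod ν) := hΘs.comp ((sk_mp T α).iterate m)
        rw [h6, pre_real h13 ((hΘ.measurable (hB i)).symmDiff (lab_meas D r (C i) (hC i)))]
        exact (hC2 i).le
      have h12 := hΨ i a a.2
      refine (measureReal_symmDiff_le (μ := μ.prod ν)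
        (s := (sk (T.1 : X → X) Ψ)^[(a : ℕ) * P] ⁻¹' B i) (t := (sk (T.1 : X → X) α)^[(a : ℕ) * P] ⁻¹' B i) _).trans ?_
      linarith) hDDval n h3 h4
  refine lt_of_le_of_lt hmain ?_
  rw [← hcV]
  have e1 : (k + 1) * (2 * ε1) = ε / 4 := by
    rw [hε1def]; field_simp; ring
  have e2 : cV * Real.sqrt (1 / M + 3 * e) ≤ ε / 8 := by
    refine (mul_le_mul_of_nonneg_left hMe hcV0.le).trans (le_of_eq ?_)
    field_simp
  have e3 : (k + 1) * (2 ^ r * ε2 + ε1) = ε / 4 := by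
    rw [hε1def, hε2def]; field_simp; ring
  linarith

end

end Pool.Agent.E8helper86.MM
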