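import Mathlib
import Pool.Agent.W744.NG.All
import Pool.Agent.E8helper86.MM.Key

set_option autoImplicit false
set_option linter.unusedSectionVars false
set_option linter.unusedVariables false

/-!
The generic extension of an automorphism which is mixing of order `k` is mixing of order `k`.
-/

namespace Pool.Agent.E8helper86.MM

open MeasureTheory Set Filter Topology
open scoped ENNReal symmDiff
open Pool.H359R3 Pool.H359R3.IX
open Pool.Agent.W744.NG

/-! ### invariance -/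

theorem iter_ae {Z : Type*} [MeasurableSpace Z] {m : Measure Z} {S S' : Z → Z} (hS : MeasurePreserving S m m)
    (h : ∀ᵐ z ∂m, S z = S' z) (n : ℕ) : ∀ᵐ z ∂m, S^[n] z = S'^[n] z := by
  induction n with
  | zero => exact Eventually.of_forall fun z => rfl
  | succ n ih =>
    have h3 := hS.quasiMeasurePreserving.ae ih
    filter_upwards [h3, h] with z hz1 hz2
    rw [Function.iterate_succ_apply, Function.iterate_succ_apply, hz1, hz2]

theorem MixOrd.congr {Z : Type*} [MeasurableSpace Z] {m : Measure Z} {S S' : Z → Z} {k : ℕ}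
    (hS : MeasurePreserving S m m) (h : ∀ᵐ z ∂m, S z = S' z) (hM : MixOrd m S k) : MixOrd m S' k := by
  intro A hA ε hε
  obtain ⟨N, hN⟩ := hM A hA ε hε
  refine ⟨N, fun n hn0 hn => ?_⟩
  have h1 := hN n hn0 hn
  have h2 : m.real (⋂ i, S^[n i] ⁻¹' A i) = m.real (⋂ i, S'^[n i] ⁻¹' A i) := by
    apply measureReal_congr
    have h3 : ∀ᵐ z ∂m, ∀ i, S^[n i] z = S'^[n i] z := ae_all_iff.2 fun i => iter_ae hS h (n i)
    filter_upwards [h3] with z hz
    apply propext
    show z ∈ (⋂ i, S^[n i] ⁻¹' A i) ↔ z ∈ (⋂ i, S'^[n i] ⁻¹' A i)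
    simp only [mem_iInter, mem_preimage, hz]
  rwa [h2] at h1

/-- it is enough to test mixing on a dense family of sets -/
theorem MixOrd.of_dense {Z : Type*} [MeasurableSpace Z] {m : Measure Z} [IsProbabilityMeasure m] {S : Z → Z}
    (hS : MeasurePreserving S m m) {k : ℕ} (F : DF m)
    (h : ∀ (c : Fin (k + 1) → ℕ) (j : ℕ), ∃ N : ℕ, ∀ n : Fin (k + 1) → ℕ,
      n 0 = 0 → (∀ i : Fin k, n i.castSucc + N ≤ n i.succ) →
      |m.real (⋂ i, S^[n i] ⁻¹' F.C (c i)) - ∏ i, m.real (F.C (c i))| < 1 / ((j : ℝ) + 1)) : MixOrd m S k := by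
  intro A hA ε hε
  obtain ⟨e, hedef⟩ : ∃ e : ℝ, e = ε / (4 * (k + 1)) := ⟨_, rfl⟩
  have he : 0 < e := by rw [hedef]; positivity
  have h1 : ∀ i, ∃ c : ℕ, m (A i ∆ F.C c) < ENNReal.ofReal e := fun i =>
    F.dense (A i) (hA i) (measure_lt_top _ _) _ (ENNReal.ofReal_pos.2 he)
  choose c hc using h1
  have hc' : ∀ i, m.real (A i ∆ F.C (c i)) ≤ e := by
    intro i
    rw [measureReal_def]
    exact ENNReal.toReal_le_of_le_ofReal he.le (hc i).le
  obtain ⟨j, hj⟩ := exists_nat_one_div_lt (show (0 : ℝ) < ε / 2 by positivity)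
  obtain ⟨N, hN⟩ := h c j
  refine ⟨N, fun n hn0 hn => ?_⟩
  have h2 := hN n hn0 hn
  have h3 := inter_close m (fun i => S^[n i] ⁻¹' A i) (fun i => S^[n i] ⁻¹' F.C (c i)) e (by
    intro i
    have e2 : (S^[n i] ⁻¹' A i) ∆ (S^[n i] ⁻¹' F.C (c i)) = S^[n i] ⁻¹' (A i ∆ F.C (c i)) := by
      ext z
      simp [Set.mem_symmDiff]
    rw [e2, pre_real (hS.iterate _) ((hA i).symmDiff (F.meas _))]
    exact hc' i)
  have h4 := prod_close Finset.univ (fun i => m.real (A i)) (fun i => m.real (F.C (c i))) e he.le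
    (fun i => measureReal_nonneg) (fun i => measureReal_le_one) (fun i => measureReal_nonneg)
    (fun i => measureReal_le_one) (fun i =>
      (abs_measureReal_sub_le_measureReal_symmDiff (hA i).nullMeasurableSet (F.meas _).nullMeasurableSet).trans
        (hc' i))
  rw [Finset.card_univ, Fintype.card_fin] at h4
  have h5 : ((k + 1 : ℕ) : ℝ) * e = ε / 4 := by
    rw [hedef]
    push_cast
    field_simp
  rw [h5] at h3 h4
  have g2 := abs_lt.1 h2
  have g3 := abs_le.1 h3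
  have g4 := abs_le.1 h4
  rw [abs_lt]
  constructor <;> linarith [g2.1, g2.2, g3.1, g3.2, g4.1, g4.2]

section
variable {X Y : Type} [MeasurableSpace X] [StandardBorelSpace X] [MeasurableSpace Y] [StandardBorelSpace Y]
  {μ : Measure X} {ν : Measure Y} [IsProbabilityMeasure μ] [IsProbabilityMeasure ν]

theorem near (T : AU μ) (B : Set (X × Y)) (hB : MeasurableSet B) (α : Coc X ν) (n : ℕ) (η : ℝ) (hη : 0 < η) :
    ∀ᶠ Ψ in @nhds (Coc X ν) (tC μ ν) α, (μ.prod ν).real (((sk (T.1 : X → X) Ψ)^[n] ⁻¹' B) ∆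
      ((sk (T.1 : X → X) α)^[n] ⁻¹' B)) ≤ η := by
  obtain ⟨F⟩ := exists_DF (μ.prod ν)
  have h1 := Open.skA_cont (μ := μ) (ν := ν) Ind.main F T
  have h2 := (@continuous_iff_continuousAt _ _ (tC μ ν) (un F).toTopologicalSpace _).1 h1 α
  have h3 := tend_pow F _ _ _ h2 n
  have h4 := of_tendsto_un F _ _ _ h3 B hB (measure_lt_top _ _)
  have h5 := ENNReal.tendsto_nhds_zero.1 h4 (ENNReal.ofReal η) (ENNReal.ofReal_pos.2 hη)
  filter_upwards [h5] with Ψ hΨ
  have e1 : ∀ Φ : Coc X ν, (⇑(powA (skA T Φ) n).1 : X × Y → X × Y) = (sk (T.1 : X → X) Φ)^[n] := by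
    intro Φ
    funext z
    rw [powA_apply]
    rfl
  rw [e1, e1] at hΨ
  rw [measureReal_def]
  exact ENNReal.toReal_le_of_le_ofReal hη.le hΨ

theorem generic [NullSingletonClass μ] (T : AU μ) (k : ℕ) (hk : 1 ≤ k) (hT : MixOrd μ T.1 k) (D : YS ν) :
    {Φ : Coc X ν | MixOrd (μ.prod ν) (sk (T.1 : X → X) Φ) k} ∈ @residual (Coc X ν) (tC μ ν) := by
  let _ : TopologicalSpace (Coc X ν) := tC μ ν
  obtain ⟨F⟩ := exists_DF (μ.prod ν)
  set G : (Fin (k + 1) → ℕ) → ℕ → Set (Coc X ν) := fun c j => {Φ | ∃ N : ℕ, ∀ n : Fin (k + 1) → ℕ,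
      n 0 = 0 → (∀ i : Fin k, n i.castSucc + N ≤ n i.succ) →
      |(μ.prod ν).real (⋂ i, (sk (T.1 : X → X) Φ)^[n i] ⁻¹' F.C (c i)) - ∏ i, (μ.prod ν).real (F.C (c i))| <
        1 / ((j : ℝ) + 1)} with hG
  have h1 : ∀ c j, G c j ∈ residual (Coc X ν) := by
    intro c j
    have hj : (0 : ℝ) < 1 / ((j : ℝ) + 1) := by positivity
    refine Filter.mem_of_superset (residual_of_dense_open isOpen_interior ?_) interior_subset
    rw [dense_iff_inter_open]
    intro O hO hne
    obtain ⟨Φ, hΦ⟩ := hne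
    have h2 := fun l : ℕ => key T k hk hT D (fun i => F.C (c i)) (fun i => F.meas _) Φ _ (1 / ((l : ℝ) + 1)) hj
      (by positivity)
    choose α hα hα2 using h2
    choose E hE1 hE2 hE3 using hα
    have h3 : Tendsto (fun l => μ.real (E l)) atTop (𝓝 0) :=
      squeeze_zero (fun l => measureReal_nonneg) (fun l => (hE2 l).le) tendsto_one_div_add_atTop_nhds_zero_nat
    have h4 := Final.tend_of_agree (μ := μ) Ind.main Φ α E hE1 h3 hE3
    obtain ⟨l, hl⟩ := (h4.eventually (hO.mem_nhds hΦ)).exists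
    refine ⟨α l, hl, ?_⟩
    obtain ⟨η, M, P, N, hη, hmain⟩ := hα2 l
    rw [mem_interior_iff_mem_nhds]
    have h5 : ∀ᶠ Ψ in 𝓝 (α l), ∀ i : Fin (k + 1), ∀ a ∈ Finset.range M,
        (μ.prod ν).real (((sk (T.1 : X → X) Ψ)^[a * P] ⁻¹' F.C (c i)) ∆
          ((sk (T.1 : X → X) (α l))^[a * P] ⁻¹' F.C (c i))) ≤ η := by
      rw [Filter.eventually_all]
      intro i
      rw [Filter.eventually_all_finset]
      intro a _
      exact near T _ (F.meas _) (α l) _ η hη
    refine Filter.mem_of_superset h5 ?_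
    intro Ψ hΨ
    exact ⟨N, fun n hn0 hn => hmain Ψ (fun i a ha => hΨ i a (Finset.mem_range.2 ha)) n hn0 hn⟩
  have h2 : (⋂ c, ⋂ j, G c j) ∈ residual (Coc X ν) := by
    rw [countable_iInter_mem]
    intro c
    rw [countable_iInter_mem]
    intro j
    exact h1 c j
  refine Filter.mem_of_superset h2 ?_
  intro Φ hΦ
  rw [mem_iInter] at hΦ
  refine MixOrd.of_dense (sk_mp T Φ) F fun c j => ?_
  have := hΦ c
  rw [mem_iInter] at this
  exact this j

end

end Pool.Agent.E8helper86.MM
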